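import Mathlib
import Pool.Agent.W811.Stu.Defs
import Pool.Agent.H695R3.ST.Win

/-!
Continued fractions and floors: the Sturmian potential repeats itself along the denominators.
-/

set_option autoImplicit false

namespace Pool.Agent.W965.Stu

open Pool.Agent.W811.Stu Pool.Agent.H695R3.ST

/-- denominators, `QQ a (m + 1) = q_m` -/
def QQ (a : ℕ → ℕ) : ℕ → ℕ
  | 0 => 0
  | 1 => 1
  | m + 2 => a m * QQ a (m + 1) + QQ a m

/-- numerators, `PP a (m + 1) = p_m` -/
def PP (a : ℕ → ℕ) : ℕ → ℕ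
  | 0 => 1
  | 1 => 0
  | m + 2 => a m * PP a (m + 1) + PP a m

lemma QQ_succ (a : ℕ → ℕ) (m : ℕ) : QQ a (m + 2) = a m * QQ a (m + 1) + QQ a m := rfl

lemma PP_succ (a : ℕ → ℕ) (m : ℕ) : PP a (m + 2) = a m * PP a (m + 1) + PP a m := rfl

lemma QQ_pos {a : ℕ → ℕ} (ha : ∀ m, 1 ≤ a m) (m : ℕ) : 1 ≤ QQ a (m + 1) := by
  induction m with
  | zero => exact le_refl _
  | succ m ih =>
    rw [QQ_succ]
    have := Nat.mul_le_mul (ha m) ih
    omega

lemma QQ_add {a : ℕ → ℕ} (ha : ∀ m, 1 ≤ a m) (m : ℕ) :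
    QQ a (m + 1) + QQ a m ≤ QQ a (m + 2) := by
  rw [QQ_succ]
  have := Nat.mul_le_mul (ha m) (le_refl (QQ a (m + 1)))
  omega

lemma QQ_large {a : ℕ → ℕ} (ha : ∀ m, 1 ≤ a m) (m : ℕ) : m + 1 ≤ QQ a (m + 2) := by
  induction m with
  | zero =>
    exact QQ_pos ha 1
  | succ m ih =>
    have h1 := QQ_add ha (m + 1)
    have h2 := QQ_pos ha m
    have h3 : QQ a (m + 1 + 1) = QQ a (m + 2) := rfl
    have h4 : QQ a (m + 1 + 2) = QQ a (m + 3) := rfl
    rw [h3, h4] at h1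
    have h5 : QQ a (m + 1 + 2) = QQ a (m + 3) := rfl
    rw [h5]
    omega

lemma PP_le {a : ℕ → ℕ} (ha : ∀ m, 1 ≤ a m) (m : ℕ) :
    PP a (m + 1) ≤ QQ a (m + 1) ∧ PP a (m + 2) ≤ QQ a (m + 2) := by
  induction m with
  | zero =>
    constructor
    · exact Nat.zero_le _
    · rw [PP_succ, QQ_succ]
      have := ha 0
      have e1 : PP a (0 + 1) = 0 := rfl
      have e2 : PP a 0 = 1 := rfl
      have e3 : QQ a (0 + 1) = 1 := rfl
      have e4 : QQ a 0 = 0 := rfl
      rw [e1, e2, e3, e4]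
      omega
  | succ m ih =>
    refine ⟨ih.2, ?_⟩
    rw [PP_succ, QQ_succ]
    exact Nat.add_le_add (Nat.mul_le_mul (le_refl _) ih.2) ih.1

lemma det_QP (a : ℕ → ℕ) (m : ℕ) :
    (QQ a (m + 1) : ℤ) * PP a m - QQ a m * PP a (m + 1) = (-1) ^ m := by
  induction m with
  | zero =>
    have e1 : PP a (0 + 1) = 0 := rfl
    have e2 : PP a 0 = 1 := rfl
    have e3 : QQ a (0 + 1) = 1 := rfl
    have e4 : QQ a 0 = 0 := rfl
    rw [e1, e2, e3, e4]
    norm_num
  | succ m ih =>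
    have h1 := QQ_succ a m
    have h2 := PP_succ a m
    rw [show m + 1 + 1 = m + 2 from rfl, h1, h2, pow_succ]
    push_cast
    linear_combination -ih

/-! ### the Gauss map -/

lemma gauss_mem {x : ℝ} (hx : Irrational x) : Irrational (gauss x) ∧ 0 < gauss x ∧ gauss x < 1 := by
  have h1 : Irrational (gauss x) := by
    unfold gauss
    rw [← Int.self_sub_floor]
    exact (hx.inv).sub_intCast _
  refine ⟨h1, ?_, Int.fract_lt_one _⟩
  refine lt_of_le_of_ne (Int.fract_nonneg _) ?_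
  intro h
  have := h1.ne_zero
  exact this h.symm

variable {α : ℝ}

lemma orbit_mem (hα : Irrational α) (h0 : 0 < α) (h1 : α < 1) (k : ℕ) :
    Irrational (gauss^[k] α) ∧ 0 < gauss^[k] α ∧ gauss^[k] α < 1 := by
  induction k with
  | zero => exact ⟨hα, h0, h1⟩
  | succ k ih =>
    rw [Function.iterate_succ_apply']
    exact gauss_mem ih.1

lemma dig_add (hα : Irrational α) (h0 : 0 < α) (h1 : α < 1) (k : ℕ) :
    (gauss^[k] α)⁻¹ = (dig α k : ℝ) + gauss^[k + 1] α := by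
  obtain ⟨-, h2, -⟩ := orbit_mem hα h0 h1 k
  rw [Function.iterate_succ_apply']
  unfold dig
  generalize gauss^[k] α = y at h2 ⊢
  have h3 : (0:ℝ) ≤ y⁻¹ := (inv_pos.2 h2).le
  have h4 : ((⌊y⁻¹⌋₊ : ℕ) : ℝ) = ((⌊y⁻¹⌋ : ℤ) : ℝ) :=
    natCast_floor_eq_intCast_floor h3
  have h5 := Int.floor_add_fract y⁻¹
  unfold gauss
  rw [h4]
  exact h5.symm

lemma dig_pos (hα : Irrational α) (h0 : 0 < α) (h1 : α < 1) (k : ℕ) : 1 ≤ dig α k := by
  obtain ⟨-, h2, h3⟩ := orbit_mem hα h0 h1 k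
  unfold dig
  rw [Nat.one_le_floor_iff]
  exact (one_le_inv₀ h2).2 h3.le

/-- `q_{m-1} α - p_{m-1}` -/
noncomputable def del (α : ℝ) (m : ℕ) : ℝ := QQ (dig α) m * α - PP (dig α) m

lemma del_succ (hα : Irrational α) (h0 : 0 < α) (h1 : α < 1) (m : ℕ) :
    del α (m + 1) = -(gauss^[m] α) * del α m := by
  induction m with
  | zero =>
    unfold del
    have e1 : PP (dig α) (0 + 1) = 0 := rfl
    have e2 : PP (dig α) 0 = 1 := rfl
    have e3 : QQ (dig α) (0 + 1) = 1 := rfl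
    have e4 : QQ (dig α) 0 = 0 := rfl
    rw [e1, e2, e3, e4]
    simp
  | succ m ih =>
    have h2 := dig_add hα h0 h1 m
    obtain ⟨-, h3, -⟩ := orbit_mem hα h0 h1 m
    have e : del α (m + 1 + 1) = dig α m * del α (m + 1) + del α m := by
      unfold del
      rw [show m + 1 + 1 = m + 2 from rfl, QQ_succ, PP_succ]
      push_cast
      ring
    have h4 : del α m = -(gauss^[m] α)⁻¹ * del α (m + 1) := by
      rw [ih]
      field_simp
    rw [e, h4, h2]
    ring

lemma del_sign (hα : Irrational α) (h0 : 0 < α) (h1 : α < 1) (m : ℕ) :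
    0 < (-1) ^ (m + 1) * del α m := by
  induction m with
  | zero =>
    unfold del
    have e2 : PP (dig α) 0 = 1 := rfl
    have e4 : QQ (dig α) 0 = 0 := rfl
    rw [e2, e4]
    norm_num
  | succ m ih =>
    obtain ⟨-, h3, -⟩ := orbit_mem hα h0 h1 m
    rw [del_succ hα h0 h1, pow_succ]
    have := mul_pos h3 ih
    linarith

/-- **Best approximation.** -/
lemma best (hα : Irrational α) (h0 : 0 < α) (h1 : α < 1) (m : ℕ) {n N : ℤ} (hn : 0 < n)
    (hn2 : n < QQ (dig α) (m + 2)) : |del α (m + 1)| ≤ |(n : ℝ) * α - N| := by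
  have hd := det_QP (dig α) (m + 1)
  have s1 := del_sign hα h0 h1 (m + 1)
  have s2 := del_sign hα h0 h1 (m + 2)
  set Q1 : ℤ := ((QQ (dig α) (m + 1) : ℕ) : ℤ) with hQ1
  set Q2 : ℤ := ((QQ (dig α) (m + 2) : ℕ) : ℤ) with hQ2
  set P1 : ℤ := ((PP (dig α) (m + 1) : ℕ) : ℤ) with hP1
  set P2 : ℤ := ((PP (dig α) (m + 2) : ℕ) : ℤ) with hP2
  set s : ℤ := (-1) ^ (m + 1) with hs
  have hss : s * s = 1 := by
    rw [hs, ← mul_pow]; norm_num
  set u : ℤ := -s * (n * P2 - N * Q2) with hu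
  set v : ℤ := -s * (Q1 * N - P1 * n) with hv
  have e1 : n = u * Q1 + v * Q2 := by
    rw [hu, hv]
    linear_combination (-n) * hss - (s * n) * hd
  have e2 : N = u * P1 + v * P2 := by
    rw [hu, hv]
    linear_combination (-N) * hss - (s * N) * hd
  have hQ1p : 1 ≤ Q1 := by
    have := QQ_pos (fun k => dig_pos hα h0 h1 k) m
    rw [hQ1]; exact_mod_cast this
  have hQ2p : 1 ≤ Q2 := by
    have := QQ_pos (fun k => dig_pos hα h0 h1 k) (m + 1)
    rw [hQ2]; exact_mod_cast this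
  have e3 : (n : ℝ) * α - N = u * del α (m + 1) + v * del α (m + 2) := by
    have r1 : (n : ℝ) = u * Q1 + v * Q2 := by exact_mod_cast e1
    have r2 : (N : ℝ) = u * P1 + v * P2 := by exact_mod_cast e2
    unfold del
    rw [r1, r2, hQ1, hQ2, hP1, hP2]
    push_cast
    ring
  set σ : ℝ := (-1) ^ (m + 2) with hσ
  have hσσ : |σ| = 1 := by rw [hσ, abs_pow]; norm_num
  have d1 : 0 < σ * del α (m + 1) := s1
  have d2 : 0 < -(σ * del α (m + 2)) := by
    have : (-1 : ℝ) ^ (m + 2 + 1) = -σ := by rw [pow_succ, hσ]; ring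
    rw [this] at s2
    linarith
  have e4 : |(n : ℝ) * α - N| = |u * (σ * del α (m + 1)) - v * (-(σ * del α (m + 2)))| := by
    rw [e3, ← one_mul |_ + _|, ← hσσ, ← abs_mul]
    congr 1
    ring
  have e5 : |del α (m + 1)| = σ * del α (m + 1) := by
    rw [← abs_of_pos d1, abs_mul, hσσ, one_mul]
  rw [e4, e5]
  set x := σ * del α (m + 1) with hx
  set y := -(σ * del α (m + 2)) with hy
  rcases lt_trichotomy v 0 with hv0 | hv0 | hv0
  · have hu0 : 1 ≤ u := by
      by_contra hcon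
      have : u ≤ 0 := by omega
      nlinarith
    have r1 : (1 : ℝ) ≤ u := by exact_mod_cast hu0
    have r2 : (v : ℝ) ≤ 0 := by exact_mod_cast hv0.le
    refine le_trans ?_ (le_abs_self _)
    nlinarith
  · have hu0 : 1 ≤ u := by
      by_contra hcon
      have : u ≤ 0 := by omega
      rw [hv0] at e1
      nlinarith
    have r1 : (1 : ℝ) ≤ u := by exact_mod_cast hu0
    rw [hv0]
    refine le_trans ?_ (le_abs_self _)
    push_cast
    nlinarith
  · have hu0 : u ≤ -1 := by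
      by_contra hcon
      have h2 : 0 ≤ u := by omega
      nlinarith
    have r1 : (u : ℝ) ≤ -1 := by exact_mod_cast hu0
    have r2 : (0 : ℝ) ≤ v := by exact_mod_cast hv0.le
    refine le_trans ?_ (neg_le_abs _)
    nlinarith

lemma floor_shift (hα : Irrational α) (h0 : 0 < α) (h1 : α < 1) (m : ℕ) {n : ℤ} (hn : 0 < n)
    (hn2 : n < QQ (dig α) (m + 2)) :
    ⌊((n + QQ (dig α) (m + 1) : ℤ) : ℝ) * α⌋ = ⌊(n : ℝ) * α⌋ + PP (dig α) (m + 1) := by
  have b1 := best hα h0 h1 m (N := ⌊(n : ℝ) * α⌋) hn hn2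
  have b2 := best hα h0 h1 m (N := ⌊(n : ℝ) * α⌋ + 1) hn hn2
  set F : ℤ := ⌊(n : ℝ) * α⌋ with hF
  have f1 : (F : ℝ) ≤ n * α := Int.floor_le _
  have f2 : (n : ℝ) * α < F + 1 := Int.lt_floor_add_one _
  rw [abs_of_nonneg (by linarith : 0 ≤ (n : ℝ) * α - F)] at b1
  push_cast at b2
  rw [abs_of_nonpos (by linarith : (n : ℝ) * α - (F + 1) ≤ 0)] at b2
  have g1 := neg_abs_le (del α (m + 1))
  have g2 := le_abs_self (del α (m + 1))
  have e : ((n + QQ (dig α) (m + 1) : ℤ) : ℝ) * α = n * α + del α (m + 1) + PP (dig α) (m + 1) := by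
    unfold del
    push_cast
    ring
  have hirr : Irrational (((n + QQ (dig α) (m + 1) : ℤ) : ℝ) * α) := hα.intCast_mul (by omega)
  rw [Int.floor_eq_iff]
  push_cast
  push_cast at e hirr
  constructor
  · rw [e]; linarith
  · refine lt_of_le_of_ne (by rw [e]; linarith) ?_
    have := hirr.ne_int (F + PP (dig α) (m + 1) + 1)
    push_cast at this
    exact this

/-- the Sturmian potential -/
lemma pot_eq {lam : ℝ} (h0 : 0 < α) (h1 : α < 1) (n : ℤ) :
    pot lam α 0 n = lam * ((⌊((n + 1 : ℤ) : ℝ) * α⌋ : ℝ) - ⌊(n : ℝ) * α⌋) := by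
  rw [pot_floor h0 h1, zero_add, zero_add]

lemma pot_shift {lam : ℝ} (hα : Irrational α) (h0 : 0 < α) (h1 : α < 1) (m : ℕ) {n : ℤ}
    (hn : 0 < n) (hn2 : n + 1 < QQ (dig α) (m + 2)) :
    pot lam α 0 (n + QQ (dig α) (m + 1)) = pot lam α 0 n := by
  have e1 := floor_shift hα h0 h1 m hn (by omega)
  have e2 := floor_shift hα h0 h1 m (n := n + 1) (by omega) hn2
  rw [pot_eq h0 h1, pot_eq h0 h1,
    show n + (QQ (dig α) (m + 1) : ℤ) + 1 = n + 1 + QQ (dig α) (m + 1) by ring, e1, e2]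
  push_cast
  ring

/-! ### the first blocks -/

lemma pot_first {lam : ℝ} (hα : Irrational α) (h0 : 0 < α) (h1 : α < 1) {n : ℤ} (hn : 0 ≤ n)
    (hn2 : n < dig α 0) : pot lam α 0 n = 0 := by
  have hd := dig_add hα h0 h1 0
  obtain ⟨-, g1, g2⟩ := orbit_mem hα h0 h1 1
  rw [Function.iterate_zero, id_eq] at hd
  have hd2 : 1 = dig α 0 * α + gauss^[0 + 1] α * α := by
    rw [← add_mul, ← hd, inv_mul_cancel₀ h0.ne']
  have g3 : 0 < gauss^[0 + 1] α * α := mul_pos g1 h0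
  have fl : ∀ k : ℤ, 0 ≤ k → k ≤ dig α 0 → ⌊(k : ℝ) * α⌋ = 0 := by
    intro k hk hk2
    rw [Int.floor_eq_zero_iff]
    have r1 : (0 : ℝ) ≤ k := by exact_mod_cast hk
    have r2 : (k : ℝ) ≤ dig α 0 := by exact_mod_cast hk2
    constructor
    · positivity
    · have := mul_le_mul_of_nonneg_right r2 h0.le
      linarith
  rw [pot_eq h0 h1, fl n hn hn2.le, fl (n + 1) (by omega) (by omega)]
  simp

lemma pot_first' {lam : ℝ} (hα : Irrational α) (h0 : 0 < α) (h1 : α < 1) :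
    pot lam α 0 (dig α 0) = lam := by
  have hd := dig_add hα h0 h1 0
  obtain ⟨-, g1, g2⟩ := orbit_mem hα h0 h1 1
  rw [Function.iterate_zero, id_eq] at hd
  have hd2 : 1 = dig α 0 * α + gauss^[0 + 1] α * α := by
    rw [← add_mul, ← hd, inv_mul_cancel₀ h0.ne']
  have g3 : 0 < gauss^[0 + 1] α * α := mul_pos g1 h0
  have g4 : gauss^[0 + 1] α * α < α := by
    have : gauss^[0 + 1] α * α < 1 * α := mul_lt_mul_of_pos_right g2 h0
    linarith
  have f1 : ⌊((dig α 0 : ℤ) : ℝ) * α⌋ = 0 := by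
    rw [Int.floor_eq_zero_iff]
    constructor
    · positivity
    · push_cast
      linarith
  have f2 : ⌊((dig α 0 + 1 : ℤ) : ℝ) * α⌋ = 1 := by
    rw [Int.floor_eq_iff]
    push_cast
    constructor
    · linarith
    · linarith
  rw [pot_eq h0 h1, f1, f2]
  simp

lemma pot_second {lam : ℝ} (hα : Irrational α) (h0 : 0 < α) (h1 : α < 1) :
    pot lam α 0 (QQ (dig α) 3) = 0 := by
  have hd := dig_add hα h0 h1 0
  obtain ⟨-, g1, g2⟩ := orbit_mem hα h0 h1 1
  obtain ⟨-, k1, k2⟩ := orbit_mem hα h0 h1 2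
  have hdp := dig_pos hα h0 h1 0
  have hdp' : (1 : ℝ) ≤ dig α 0 := by exact_mod_cast hdp
  rw [Function.iterate_zero, id_eq] at hd
  have hd2 : 1 = dig α 0 * α + gauss^[1] α * α := by
    rw [← add_mul, ← hd, inv_mul_cancel₀ h0.ne']
  have g3 : 0 < gauss^[1] α * α := mul_pos g1 h0
  have e1 : del α 1 = α := by
    have := del_succ hα h0 h1 0
    rw [zero_add] at this
    rw [this]
    unfold del
    have e2 : PP (dig α) 0 = 1 := rfl
    have e4 : QQ (dig α) 0 = 0 := rfl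
    rw [e2, e4]
    simp
  have e2 : del α 2 = -(gauss^[1] α) * α := by
    have := del_succ hα h0 h1 1
    rw [e1] at this
    exact this
  have e3 : del α 3 = gauss^[2] α * (gauss^[1] α * α) := by
    have := del_succ hα h0 h1 2
    rw [e2] at this
    rw [show (3 : ℕ) = 2 + 1 from rfl, this]
    ring
  have p3 : 0 < del α 3 := by rw [e3]; exact mul_pos k1 g3
  have q3 : del α 3 < gauss^[1] α * α := by
    rw [e3]
    have := mul_lt_mul_of_pos_right k2 g3
    linarith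
  have hα1 : α ≤ dig α 0 * α := by
    have := mul_le_mul_of_nonneg_right hdp' h0.le
    linarith
  have ed : ((QQ (dig α) 3 : ℤ) : ℝ) * α = del α 3 + PP (dig α) 3 := by
    unfold del; push_cast; ring
  have f1 : ⌊((QQ (dig α) 3 : ℤ) : ℝ) * α⌋ = PP (dig α) 3 := by
    rw [ed, Int.floor_eq_iff]
    push_cast
    constructor <;> linarith
  have f2 : ⌊((QQ (dig α) 3 + 1 : ℤ) : ℝ) * α⌋ = PP (dig α) 3 := by
    have : ((QQ (dig α) 3 + 1 : ℤ) : ℝ) * α = del α 3 + PP (dig α) 3 + α := by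
      unfold del; push_cast; ring
    rw [this, Int.floor_eq_iff]
    push_cast
    constructor <;> linarith
  rw [pot_eq h0 h1, f1, f2]
  simp

/-! ### rational approximations from below -/

lemma del_small (hα : Irrational α) (h0 : 0 < α) (h1 : α < 1) (m : ℕ) :
    QQ (dig α) (m + 1) * |del α m| < 1 ∨ m = 0 := by
  rcases Nat.eq_zero_or_pos m with hm | hm
  · right; exact hm
  left
  have s1 := del_sign hα h0 h1 m
  have s2 := del_sign hα h0 h1 (m + 1)
  have hd := det_QP (dig α) m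
  have hdr : (QQ (dig α) (m + 1) : ℝ) * PP (dig α) m - QQ (dig α) m * PP (dig α) (m + 1) =
      (-1) ^ m := by exact_mod_cast hd
  set σ : ℝ := (-1) ^ m with hσ
  have hσσ : |σ| = 1 := by rw [hσ, abs_pow]; norm_num
  have hσ2 : σ * σ = 1 := by rw [hσ, ← mul_pow]; norm_num
  have e1 : (-1 : ℝ) ^ (m + 1) = -σ := by rw [pow_succ, hσ]; ring
  have e2 : (-1 : ℝ) ^ (m + 1 + 1) = σ := by rw [pow_succ, pow_succ, hσ]; ring
  rw [e1] at s1
  rw [e2] at s2
  have e5 : |del α m| = -(σ * del α m) := by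
    have : |σ * del α m| = |del α m| := by rw [abs_mul, hσσ, one_mul]
    rw [← this, abs_of_neg (by linarith)]
  have hq : (1 : ℝ) ≤ QQ (dig α) m := by
    obtain ⟨k, rfl⟩ : ∃ k, m = k + 1 := ⟨m - 1, by omega⟩
    exact_mod_cast QQ_pos (fun k => dig_pos hα h0 h1 k) k
  have e6 : (QQ (dig α) (m + 1) : ℝ) * (-(σ * del α m)) + QQ (dig α) m * (σ * del α (m + 1)) = 1 := by
    unfold del
    linear_combination σ * hdr + hσ2
  have : 0 < (QQ (dig α) m : ℝ) * (σ * del α (m + 1)) := by positivity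
  rw [e5]
  linarith

/-- for even `k`, the potential agrees with the periodic one -/
lemma pot_Wp {lam : ℝ} (hα : Irrational α) (h0 : 0 < α) (h1 : α < 1) {m : ℕ} (hm : Even m)
    {n : ℤ} (hn : 0 ≤ n) (hn2 : n + 1 ≤ QQ (dig α) (m + 2)) :
    pot lam α 0 n = Wp lam (PP (dig α) (m + 1)) (QQ (dig α) (m + 1)) n := by
  have hq : 0 < QQ (dig α) (m + 1) := QQ_pos (fun k => dig_pos hα h0 h1 k) m
  have hqr : (0 : ℝ) < QQ (dig α) (m + 1) := by exact_mod_cast hq
  have s1 := del_sign hα h0 h1 (m + 1)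
  have hev : Even (m + 1 + 1) := by
    rw [show m + 1 + 1 = m + 2 from rfl]
    exact hm.add (by decide)
  rw [hev.neg_one_pow, one_mul] at s1
  have s2 := (del_small hα h0 h1 (m + 1)).resolve_right (by omega)
  rw [abs_of_pos s1, show m + 1 + 1 = m + 2 from rfl] at s2
  have key : ∀ k : ℤ, 0 ≤ k → k ≤ QQ (dig α) (m + 2) →
      ⌊(k : ℝ) * α⌋ = k * PP (dig α) (m + 1) / (QQ (dig α) (m + 1) : ℤ) := by
    intro k hk hk2
    have r1 : (0 : ℝ) ≤ k := by exact_mod_cast hk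
    have r2 : (k : ℝ) ≤ QQ (dig α) (m + 2) := by exact_mod_cast hk2
    have e : (k : ℝ) * α = ((k * PP (dig α) (m + 1) : ℤ) : ℝ) / QQ (dig α) (m + 1) +
        k * del α (m + 1) / QQ (dig α) (m + 1) := by
      unfold del
      push_cast
      field_simp
      ring
    rw [e, floor_near hq _ (by positivity)]
    apply div_lt_div_of_pos_right _ hqr
    have := mul_le_mul_of_nonneg_right r2 s1.le
    linarith
  rw [pot_eq h0 h1, key n hn (by omega), key (n + 1) (by omega) hn2]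
  rfl

end Pool.Agent.W965.Stu
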