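import Mathlib
import Pool.Agent.W811.Stu.Defs
import Pool.Agent.H695R3.ST.Crit
import Pool.Agent.W965.Stu.CF

/-!
Traces of transfer matrices along the denominators, and the escape condition.
-/

set_option autoImplicit false

namespace Pool.Agent.W965.Stu

open Pool.Agent.W811.Stu Pool.Agent.H695R3.ST

/-- trace coordinates of a pair -/
noncomputable def tri (A B : Matrix (Fin 2) (Fin 2) ℝ) : P3 :=
  ⟨A.trace / 2, B.trace / 2, (A * B).trace / 2⟩

lemma stepR_tri (A B : Matrix (Fin 2) (Fin 2) ℝ) (hB : B.det = 1) :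
    stepR (tri A B) = tri (A * B) B := by
  rw [Matrix.det_fin_two] at hB
  unfold stepR tri
  ext
  · rfl
  · rfl
  · simp only [Matrix.trace_fin_two, Matrix.mul_apply, Fin.sum_univ_two]
    linear_combination ((A 0 0 + A 1 1) / 2) * hB

lemma stepR_iter (A B : Matrix (Fin 2) (Fin 2) ℝ) (hB : B.det = 1) (d : ℕ) :
    stepR^[d] (tri A B) = tri (A * B ^ d) B := by
  induction d with
  | zero => simp
  | succ d ih => rw [Function.iterate_succ_apply', ih, stepR_tri _ _ hB, pow_succ, Matrix.mul_assoc]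

lemma stepS_tri (A B : Matrix (Fin 2) (Fin 2) ℝ) : stepS (tri A B) = tri B A := by
  unfold stepS tri
  ext
  · rfl
  · rfl
  · change (A * B).trace / 2 = (B * A).trace / 2
    rw [Matrix.trace_mul_comm]

lemma stepT_tri (A B : Matrix (Fin 2) (Fin 2) ℝ) (hB : B.det = 1) (d : ℕ) :
    stepT d (tri A B) = tri B (A * B ^ d) := by
  unfold stepT
  rw [stepR_iter A B hB, stepS_tri]

/-- the matrices `M_{m-1}` -/
noncomputable def MP (lam E : ℝ) (d : ℕ → ℕ) : ℕ → Matrix (Fin 2) (Fin 2) ℝ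
  | 0 => !![1, -lam; 0, 1]
  | 1 => !![E, -1; 1, 0]
  | m + 2 => MP lam E d m * MP lam E d (m + 1) ^ d m

lemma MP_succ (lam E : ℝ) (d : ℕ → ℕ) (m : ℕ) :
    MP lam E d (m + 2) = MP lam E d m * MP lam E d (m + 1) ^ d m := rfl

lemma MP_det (lam E : ℝ) (d : ℕ → ℕ) (m : ℕ) :
    (MP lam E d m).det = 1 ∧ (MP lam E d (m + 1)).det = 1 := by
  induction m with
  | zero =>
    constructor
    · change (!![1, -lam; 0, 1] : Matrix (Fin 2) (Fin 2) ℝ).det = 1
      rw [Matrix.det_fin_two_of]; ring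
    · change (!![E, -1; 1, 0] : Matrix (Fin 2) (Fin 2) ℝ).det = 1
      rw [Matrix.det_fin_two_of]; ring
  | succ m ih =>
    refine ⟨ih.2, ?_⟩
    rw [MP_succ, Matrix.det_mul, Matrix.det_pow, ih.1, ih.2, one_pow, mul_one]

lemma orb_tri (lam E : ℝ) (d : ℕ → ℕ) (m : ℕ) :
    orb d (lin lam E) m = tri (MP lam E d m) (MP lam E d (m + 1)) := by
  induction m with
  | zero =>
    change lin lam E = tri !![1, -lam; 0, 1] !![E, -1; 1, 0]
    unfold lin tri
    ext
    · simp [Matrix.trace_fin_two]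
    · simp [Matrix.trace_fin_two]
    · simp [Matrix.trace_fin_two]
      ring
  | succ m ih =>
    rw [orb, ih, stepT_tri _ _ (MP_det lam E d m).2]
    rfl

lemma orb_y (lam E : ℝ) (d : ℕ → ℕ) (m : ℕ) :
    (orb d (lin lam E) m).y = (MP lam E d (m + 1)).trace / 2 := by
  rw [orb_tri]
  rfl

/-! ### transfer matrices of the potential -/

variable {V : ℤ → ℝ} {E : ℝ}

lemma PE_add (V : ℤ → ℝ) (E : ℝ) (m : ℤ) (a b : ℕ) :
    PE V E m (a + b) = PE V E (m + a) b * PE V E m a := by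
  unfold PE
  rw [P_add, map_mul_eval]

lemma PE_congr {V V' : ℤ → ℝ} {E : ℝ} {m m' : ℤ} {k : ℕ}
    (h : ∀ j : ℕ, j < k → V (m + j) = V' (m' + j)) : PE V E m k = PE V' E m' k := by
  unfold PE
  rw [P_congr h]

lemma PE_one (V : ℤ → ℝ) (E : ℝ) (m : ℤ) : PE V E m 1 = !![E - V m, -1; 1, 0] := by
  unfold PE
  rw [P_one]
  ext i j
  fin_cases i <;> fin_cases j <;> simp [T]

lemma PE_zero (V : ℤ → ℝ) (E : ℝ) (m : ℤ) : PE V E m 0 = 1 := by
  unfold PE
  rw [P_zero]
  ext i j
  fin_cases i <;> fin_cases j <;> simp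

lemma per_iter {q : ℕ} {B : ℤ} (h : ∀ n : ℤ, 0 < n → n + q ≤ B → V (n + q) = V n) (i : ℕ) :
    ∀ n : ℤ, 0 < n → n + i * q ≤ B → V (n + i * q) = V n := by
  induction i with
  | zero => intro n _ _; simp
  | succ i ih =>
    intro n hn hB
    have hq : (0 : ℤ) ≤ q := Int.natCast_nonneg q
    have hiq : (0 : ℤ) ≤ i * q := by positivity
    have e : n + ((i + 1 : ℕ) : ℤ) * q = (n + i * q) + q := by push_cast; ring
    rw [e] at hB ⊢
    rw [h (n + i * q) (by omega) hB, ih n hn (by omega)]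

lemma PE_pow {q : ℕ} {B : ℤ} (h : ∀ n : ℤ, 0 < n → n + q ≤ B → V (n + q) = V n) (i : ℕ)
    (hi : ((i * q : ℕ) : ℤ) ≤ B) : PE V E 1 (i * q) = PE V E 1 q ^ i := by
  induction i with
  | zero => rw [Nat.zero_mul, PE_zero, pow_zero]
  | succ i ih =>
    have e : (i + 1) * q = i * q + q := by ring
    have hb : ((i * q : ℕ) : ℤ) + q ≤ B := by
      rw [e] at hi; push_cast at hi ⊢; exact hi
    rw [e, PE_add, ih (by have : (0 : ℤ) ≤ q := Int.natCast_nonneg q; omega), pow_succ']
    congr 1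
    apply PE_congr
    intro j hj
    have := per_iter h i (1 + j) (by omega) (by push_cast at hb ⊢; omega)
    rw [← this]
    congr 1
    push_cast
    ring

variable {α lam : ℝ}

/-- **The matrices of the trace map are the transfer matrices over `[1, q_m]`.** -/
theorem MP_eq (hα : Irrational α) (h0 : 0 < α) (h1 : α < 1) (m : ℕ) :
    MP lam E (dig α) (m + 2) = PE (pot lam α 0) E 1 (QQ (dig α) (m + 2)) ∧
    MP lam E (dig α) (m + 3) = PE (pot lam α 0) E 1 (QQ (dig α) (m + 3)) := by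
  have ha := fun k => dig_pos hα h0 h1 k
  induction m with
  | zero =>
    have k1 : MP lam E (dig α) 2 = PE (pot lam α 0) E 1 (QQ (dig α) 2) := by
      have e2 : QQ (dig α) 2 = dig α 0 := by
        rw [show (2 : ℕ) = 0 + 2 from rfl, QQ_succ]
        have e3 : QQ (dig α) (0 + 1) = 1 := rfl
        have e4 : QQ (dig α) 0 = 0 := rfl
        rw [e3, e4]; ring
      have hms : MP lam E (dig α) 2 = MP lam E (dig α) 0 * MP lam E (dig α) 1 ^ dig α 0 := rfl
      rw [e2, hms]
      obtain ⟨r, hr⟩ : ∃ r, dig α 0 = r + 1 := ⟨dig α 0 - 1, by have := ha 0; omega⟩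
      have e5 : PE (pot lam α 0) E 1 r = MP lam E (dig α) 1 ^ r := by
        have hB : ∀ n : ℤ, 0 < n → n + (1 : ℕ) ≤ (r : ℤ) → pot lam α 0 (n + (1 : ℕ)) =
            pot lam α 0 n := by
          intro n hn hn2
          rw [pot_first hα h0 h1 (by push_cast; omega) (by rw [hr]; push_cast at hn2 ⊢; omega),
            pot_first hα h0 h1 (by omega) (by rw [hr]; push_cast at hn2 ⊢; omega)]
        rcases Nat.eq_zero_or_pos r with h | h
        · rw [h, PE_zero, pow_zero]
        · have := PE_pow (E := E) hB r (by push_cast; omega)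
          rw [mul_one] at this
          rw [this, PE_one, pot_first hα h0 h1 (by norm_num) (by rw [hr]; push_cast; omega),
            sub_zero]
          rfl
      rw [hr, PE_add, e5, PE_one, pow_succ', ← Matrix.mul_assoc]
      have e6 : (1 : ℤ) + r = dig α 0 := by rw [hr]; push_cast; ring
      rw [e6, pot_first' hα h0 h1]
      congr 1
      change !![1, -lam; 0, 1] * !![E, -1; 1, 0] = _
      ext i j
      fin_cases i <;> fin_cases j <;> simp [Matrix.mul_apply, Fin.sum_univ_two]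
      ring
    refine ⟨k1, ?_⟩
    have e3 : QQ (dig α) (0 + 3) = dig α 1 * QQ (dig α) 2 + 1 := rfl
    have hQ2 := QQ_pos ha 1
    have hB : ∀ n : ℤ, 0 < n → n + (QQ (dig α) 2 : ℕ) ≤ ((dig α 1 * QQ (dig α) 2 : ℕ) : ℤ) →
        pot lam α 0 (n + (QQ (dig α) 2 : ℕ)) = pot lam α 0 n := by
      intro n hn hn2
      apply pot_shift hα h0 h1 1 hn
      have : QQ (dig α) (1 + 2) = dig α 1 * QQ (dig α) 2 + 1 := e3
      rw [this]
      push_cast at hn2 ⊢
      have : (1 : ℤ) ≤ QQ (dig α) 2 := by exact_mod_cast hQ2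
      omega
    have e4 := PE_pow (E := E) hB (dig α 1) (le_refl _)
    rw [e3, PE_add, e4, ← k1, PE_one]
    have e5 : (1 : ℤ) + (dig α 1 * QQ (dig α) 2 : ℕ) = (QQ (dig α) 3 : ℕ) := by
      have : QQ (dig α) 3 = dig α 1 * QQ (dig α) 2 + 1 := e3
      rw [this]; push_cast; ring
    rw [e5, pot_second hα h0 h1, sub_zero]
    rfl
  | succ m ih =>
    refine ⟨ih.2, ?_⟩
    have hs : QQ (dig α) (m + 1 + 3) = dig α (m + 2) * QQ (dig α) (m + 3) + QQ (dig α) (m + 2) :=
      rfl
    have hms : MP lam E (dig α) (m + 1 + 3) = MP lam E (dig α) (m + 2) *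
      MP lam E (dig α) (m + 3) ^ dig α (m + 2) := rfl
    have hq2 : 2 ≤ QQ (dig α) (m + 3) := by
      have := QQ_large ha (m + 1)
      have e : QQ (dig α) (m + 1 + 2) = QQ (dig α) (m + 3) := rfl
      rw [e] at this
      omega
    have hB : ∀ n : ℤ, 0 < n → n + (QQ (dig α) (m + 3) : ℕ) ≤ (QQ (dig α) (m + 1 + 3) : ℕ) →
        pot lam α 0 (n + (QQ (dig α) (m + 3) : ℕ)) = pot lam α 0 n := by
      intro n hn hn2
      apply pot_shift hα h0 h1 (m + 2) hn
      have : QQ (dig α) (m + 2 + 2) = QQ (dig α) (m + 1 + 3) := rfl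
      rw [this]
      have : (2 : ℤ) ≤ QQ (dig α) (m + 3) := by exact_mod_cast hq2
      omega
    have e4 := PE_pow (E := E) hB (dig α (m + 2)) (by rw [hs]; push_cast; omega)
    rw [hms, ih.1, ih.2, ← e4, hs, PE_add]
    congr 1
    apply PE_congr
    intro j hj
    have := per_iter hB (dig α (m + 2)) (1 + j) (by omega) (by rw [hs]; push_cast; omega)
    rw [← this]
    congr 1
    push_cast
    ring

/-- half trace = half discriminant -/
lemma orb_y_D (hα : Irrational α) (h0 : 0 < α) (h1 : α < 1) (m : ℕ) :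
    2 * (orb (dig α) (lin lam E) (m + 1)).y =
      (D (pot lam α 0) 1 (QQ (dig α) (m + 2))).eval E := by
  rw [orb_y, (MP_eq hα h0 h1 m).1, eval_D]
  unfold PE
  rw [Matrix.trace_fin_two]
  simp only [Matrix.map_apply]
  ring

/-! ### escape -/

/-- the escape condition -/
def Esc (p : P3) : Prop := 1 < |p.y| ∧ 1 < |p.x| ∧ |p.z| < |p.x|

lemma stepR_y (p : P3) (d : ℕ) : (stepR^[d] p).y = p.y := by
  induction d with
  | zero => rfl
  | succ d ih => rw [Function.iterate_succ_apply']; exact ih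

lemma stepT_z (p : P3) (d : ℕ) : (stepT d p).z = p.y := stepR_y p d

lemma stepR_z (p : P3) (d : ℕ) : (stepR^[d + 1] p).z = (stepR^[d] p).x := by
  rw [Function.iterate_succ_apply']; rfl

lemma stepR_x (p : P3) (d : ℕ) :
    (stepR^[d + 1] p).x = 2 * (stepR^[d] p).x * p.y - (stepR^[d] p).z := by
  rw [Function.iterate_succ_apply']
  unfold stepR
  rw [← stepR_y p d]
  rfl

lemma abs_step {x y z : ℝ} (_hy : 1 < |y|) (hz : |z| ≤ |x|) :
    (2 * |y| - 1) * |x| ≤ |2 * x * y - z| := by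
  have h1 := abs_sub_abs_le_abs_sub (2 * x * y) z
  rw [abs_mul, abs_mul, abs_of_pos (by norm_num : (0:ℝ) < 2)] at h1
  linarith

lemma esc_of (p : P3) (hy : 1 < |p.y|) (e : ℕ) (h1 : 1 < |(stepR^[e] p).x|)
    (h2 : |(stepR^[e] p).z| ≤ |(stepR^[e] p).x|) : Esc (stepT (e + 1) p) := by
  have h3 := abs_step hy h2
  rw [← stepR_x p e] at h3
  have hz : |(stepR^[e + 1] p).z| = |(stepR^[e] p).x| := by rw [stepR_z]
  have h4 : 2 * |p.y| - 1 ≤ |(stepR^[e + 1] p).x| := by
    refine le_trans ?_ h3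
    nlinarith
  refine ⟨?_, ?_, ?_⟩
  · change 1 < |(stepR^[e + 1] p).z|
    rw [hz]; exact h1
  · change 1 < |(stepR^[e + 1] p).x|
    linarith
  · change |(stepR^[e + 1] p).y| < |(stepR^[e + 1] p).x|
    rw [stepR_y]
    linarith

lemma esc_step {p : P3} (hp : Esc p) {d : ℕ} (hd : 1 ≤ d) : Esc (stepT d p) := by
  obtain ⟨hy, hx, hz⟩ := hp
  obtain ⟨e, rfl⟩ : ∃ e, d = e + 1 := ⟨d - 1, by omega⟩
  have key : ∀ e : ℕ, 1 < |(stepR^[e] p).x| ∧ |(stepR^[e] p).z| ≤ |(stepR^[e] p).x| := by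
    intro e
    induction e with
    | zero => exact ⟨hx, hz.le⟩
    | succ e ih =>
      have h3 := abs_step hy ih.2
      rw [← stepR_x p e] at h3
      rw [stepR_z]
      constructor
      · nlinarith [ih.1]
      · nlinarith [ih.1]
  exact esc_of p hy e (key e).1 (key e).2

lemma esc_first {p : P3} (hy : 1 < |p.y|) (hz : |p.z| ≤ 1) {d : ℕ} (hd : 1 ≤ d)
    (h : 1 < |(stepT d p).y|) : Esc (stepT d p) := by
  obtain ⟨e, rfl⟩ : ∃ e, d = e + 1 := ⟨d - 1, by omega⟩
  have key : ∀ e : ℕ, 1 < |(stepR^[e] p).x| → |(stepR^[e] p).z| ≤ |(stepR^[e] p).x| := by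
    intro e
    induction e with
    | zero => intro h2; exact hz.trans h2.le
    | succ e ih =>
      intro h2
      rw [stepR_z]
      by_cases h3 : 1 < |(stepR^[e] p).x|
      · have h4 := abs_step hy (ih h3)
        rw [← stepR_x p e] at h4
        nlinarith
      · linarith
  have h5 : 1 < |(stepR^[e] p).x| := by
    have : (stepT (e + 1) p).y = (stepR^[e + 1] p).z := rfl
    rw [this, stepR_z] at h
    exact h
  exact esc_of p hy e h5 (key e h5)

lemma esc_all {d : ℕ → ℕ} (hd : ∀ m, 1 ≤ d m) {p : P3} {m : ℕ} (h : Esc (orb d p m)) (k : ℕ) :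
    Esc (orb d p (m + k)) := by
  induction k with
  | zero => exact h
  | succ k ih => exact esc_step ih (hd _)

lemma exists_esc {d : ℕ → ℕ} (hd : ∀ m, 1 ≤ d m) (hE : E ∉ Sp lam d) :
    ∃ m, Esc (orb d (lin lam E) m) := by
  classical
  have hex : ∃ m, 1 < |(orb d (lin lam E) m).y| ∧ 1 < |(orb d (lin lam E) (m + 1)).y| := by
    by_contra hc
    apply hE
    intro m
    by_contra hc2
    apply hc
    rw [not_or, not_le, not_le] at hc2
    exact ⟨m, hc2⟩
  have hspec := Nat.find_spec hex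
  have hmin := fun {k} => Nat.find_min hex (m := k)
  set m := Nat.find hex
  refine ⟨m + 1, ?_⟩
  apply esc_first hspec.1 _ (hd m) hspec.2
  rcases Nat.eq_zero_or_pos m with h | h
  · rw [h]
    change |(1 : ℝ)| ≤ 1
    simp
  · obtain ⟨r, hr⟩ : ∃ r, m = r + 1 := ⟨m - 1, by omega⟩
    have h2 := hmin (k := r) (by omega)
    rw [not_and_or, not_lt, not_lt] at h2
    rw [hr]
    have e : (orb d (lin lam E) (r + 1)).z = (orb d (lin lam E) r).y := stepT_z _ _
    rw [e]
    rcases h2 with h2 | h2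
    · exact h2
    · rw [← hr] at h2
      linarith [hspec.1]

/-! ### openness -/

/-- coordinates depend continuously on the energy -/
def Cont (f : ℝ → P3) : Prop :=
  Continuous (fun E => (f E).z) ∧ Continuous (fun E => (f E).y) ∧ Continuous (fun E => (f E).x)

lemma cont_stepR {f : ℝ → P3} (hf : Cont f) : Cont (fun E => stepR (f E)) := by
  obtain ⟨h1, h2, h3⟩ := hf
  refine ⟨h3, h2, ?_⟩
  change Continuous (fun E => 2 * (f E).x * (f E).y - (f E).z)
  fun_prop

lemma cont_iter {f : ℝ → P3} (hf : Cont f) (d : ℕ) : Cont (fun E => stepR^[d] (f E)) := by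
  induction d with
  | zero => exact hf
  | succ d ih =>
    simp only [Function.iterate_succ_apply']
    exact cont_stepR ih

lemma cont_orb (lam : ℝ) (d : ℕ → ℕ) (m : ℕ) : Cont (fun E => orb d (lin lam E) m) := by
  induction m with
  | zero =>
    refine ⟨?_, ?_, ?_⟩
    · change Continuous (fun _ : ℝ => (1 : ℝ)); fun_prop
    · change Continuous (fun E : ℝ => E / 2); fun_prop
    · change Continuous (fun E : ℝ => (E - lam) / 2); fun_prop
  | succ m ih =>
    have := cont_iter ih (d m)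
    exact ⟨this.2.1, this.1, this.2.2⟩

lemma esc_open (lam : ℝ) (d : ℕ → ℕ) (m : ℕ) : IsOpen {E : ℝ | Esc (orb d (lin lam E) m)} := by
  obtain ⟨h1, h2, h3⟩ := cont_orb lam d m
  have : {E : ℝ | Esc (orb d (lin lam E) m)} = {E | 1 < |(orb d (lin lam E) m).y|} ∩
      ({E | 1 < |(orb d (lin lam E) m).x|} ∩
        {E | |(orb d (lin lam E) m).z| < |(orb d (lin lam E) m).x|}) := rfl
  rw [this]
  exact (isOpen_lt continuous_const h2.abs).inter
    ((isOpen_lt continuous_const h3.abs).inter (isOpen_lt h1.abs h3.abs))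

end Pool.Agent.W965.Stu
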