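import Mathlib
import Pool.Agent.W811.Stu.Stmts2
import Pool.Agent.H695R3.ST.Bloch
import Pool.Agent.W965.Stu.Tr

/-!
The trace polynomials are nonconstant and have only real zeros.
-/

set_option autoImplicit false

namespace Pool.Agent.W965.Stu

open Polynomial
open Pool.Agent.W811.Stu Pool.Agent.H695R3.ST

/-- a family of matrices which is a transfer matrix over at least one site -/
def IsT (f : ℝ → Matrix (Fin 2) (Fin 2) ℝ) : Prop :=
  ∃ (V : ℤ → ℝ) (q : ℕ), 1 ≤ q ∧ ∀ E, f E = PE V E 0 q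

lemma IsT.mul {f g : ℝ → Matrix (Fin 2) (Fin 2) ℝ} (hf : IsT f) (hg : IsT g) :
    IsT (fun E => f E * g E) := by
  obtain ⟨V, q, hq, h1⟩ := hf
  obtain ⟨W, r, hr, h2⟩ := hg
  refine ⟨fun n => if n < r then W n else V (n - r), r + q, by omega, fun E => ?_⟩
  simp only
  rw [PE_add, h1, h2]
  congr 1
  · apply PE_congr
    intro j _
    rw [if_neg (by omega)]
    congr 1
    ring
  · apply PE_congr
    intro j hj
    rw [if_pos (by omega)]

lemma IsT.mul_pow {f g : ℝ → Matrix (Fin 2) (Fin 2) ℝ} (hf : IsT f) (hg : IsT g) (k : ℕ) :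
    IsT (fun E => f E * g E ^ k) := by
  induction k with
  | zero =>
    simp only [pow_zero, Matrix.mul_one]
    exact hf
  | succ k ih =>
    have := ih.mul hg
    simp only [Matrix.mul_assoc, ← pow_succ] at this
    exact this

lemma isT_const (v : ℝ) : IsT (fun E => !![E - v, -1; 1, 0]) :=
  ⟨fun _ => v, 1, le_refl _, fun E => by rw [PE_one]⟩

lemma isT_MP (lam : ℝ) (d : ℕ → ℕ) (hd : ∀ k, 1 ≤ d k) (m : ℕ) :
    IsT (fun E => MP lam E d (m + 1)) ∧ IsT (fun E => MP lam E d (m + 2)) := by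
  have k0 : IsT (fun E => MP lam E d 1) := by
    have := isT_const 0
    simp only [sub_zero] at this
    exact this
  induction m with
  | zero =>
    refine ⟨k0, ?_⟩
    obtain ⟨r, hr⟩ : ∃ r, d 0 = r + 1 := ⟨d 0 - 1, by have := hd 0; omega⟩
    have k1 : IsT (fun E => MP lam E d 0 * MP lam E d 1) := by
      have e : (fun E => MP lam E d 0 * MP lam E d 1) = fun E => !![E - lam, -1; 1, 0] := by
        funext E
        change !![1, -lam; 0, 1] * !![E, -1; 1, 0] = _
        ext i j
        fin_cases i <;> fin_cases j <;> simp [Matrix.mul_apply, Fin.sum_univ_two]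
        ring
      rw [e]
      exact isT_const lam
    have k2 := k1.mul_pow k0 r
    have e : ∀ E, MP lam E d (0 + 2) = MP lam E d 0 * MP lam E d 1 * MP lam E d 1 ^ r := by
      intro E
      rw [MP_succ, hr, pow_succ', Matrix.mul_assoc]
    simp only [e]
    exact k2
  | succ m ih =>
    refine ⟨ih.2, ?_⟩
    exact ih.1.mul_pow ih.2 (d (m + 1))

theorem tPoly : TPoly := by
  intro lam d m hd
  obtain ⟨V, q, hq, h⟩ := (isT_MP lam d hd m).1
  obtain ⟨hmon, hdeg⟩ := D_monic V 0 hq
  refine ⟨C (1 / 2) * D V 0 q, ?_, ?_, ?_⟩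
  · rw [natDegree_C_mul (by norm_num), hdeg]
    exact hq
  · intro E
    have hE : MP lam E d (m + 1) = PE V E 0 q := h E
    rw [orb_y, eval_mul, eval_C, hE, eval_D]
    unfold PE
    rw [Matrix.trace_fin_two]
    simp only [Matrix.map_apply]
    ring
  · intro w hw
    rw [map_mul, aeval_C] at hw
    rcases mul_eq_zero.1 hw with h2 | h2
    · exfalso
      have h3 : ((1 / 2 : ℝ) : ℂ) = 0 := h2
      have h4 : (1 / 2 : ℝ) = 0 := by exact_mod_cast h3
      norm_num at h4
    · exact real_zero hq 0 h2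

end Pool.Agent.W965.Stu
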