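import Mathlib
import Pool.Agent.W811.Stu.Stmts3
import Pool.Agent.W174.Stu.Lag
import Pool.Agent.W965.Stu.Poly

/-! # Trace functions along the starting line (SD-DIST) -/

set_option autoImplicit false

open Polynomial

namespace Pool.Agent.W965.Stu.Dist

open Pool.Agent.W811.Stu

lemma lt_cc_sq {δ y : ℝ} (h : |y| < cc δ) : y ^ 2 < 1 + δ ^ 2 := by
  rw [← cc_sq, sq_lt_sq, abs_of_pos (cc_pos δ)]
  exact h

/-- nonvanishing of the derivative along the starting line -/
theorem Vy_ne {lam : ℝ} (hlam : lam ≠ 0) {d : ℕ → ℕ} (hd : ∀ k, 1 ≤ d k) (m : ℕ) (E : ℝ)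
    (hE : |(orb d (lin lam E) m).y| < cc (lam / 2)) : Vy d m (lin lam E) ≠ 0 := by
  have hδ : lam / 2 ≠ 0 := by
    intro h; apply hlam; linarith
  have h1 : (1 : ℝ) < 1 + (lam / 2) ^ 2 := by
    have : 0 < (lam / 2) ^ 2 := by positivity
    linarith
  have hy := lt_cc_sq hE
  have hS := onS_lin lam E
  have hz : (lin lam E).z ^ 2 ≤ 1 := by simp [lin]
  rcases m with _ | _ | m
  · have : Vy d 0 (lin lam E) = -(lam / 2) := by
      unfold Vy dorb fV gX lin
      simp only
      ring
    rw [this]
    exact neg_ne_zero.2 hδ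
  · have e0 : Vy d 1 (lin lam E) = (dRk (d 0) (lin lam E) (fV (lin lam E))).z := rfl
    rw [e0]
    rcases hk : d 0 with _ | _ | k
    · exact absurd hk (by have := hd 0; omega)
    · have : (dRk (0 + 1) (lin lam E) (fV (lin lam E))).z = -(lam / 2) := by
        unfold dRk dRk dR fV gB lin
        simp only
        ring
      rw [this]
      exact neg_ne_zero.2 hδ
    · have e1 : (dRk (k + 1 + 1) (lin lam E) (fV (lin lam E))).z =
          (dRk (k + 1) (lin lam E) (fV (lin lam E))).x := rfl
      have e2 : dRk (k + 1) (lin lam E) (fV (lin lam E)) =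
          drun (List.replicate k Mv.R) (stepR (lin lam E)) (dR (lin lam E) (fV (lin lam E))) := by
        rw [← drun_rep, List.replicate_succ]
        rfl
      have e3 : (run (List.replicate k Mv.R) (stepR (lin lam E))).x = (orb d (lin lam E) 1).y := by
        have e4 : run (List.replicate k Mv.R) (stepR (lin lam E)) =
            run (List.replicate (k + 1) Mv.R) (lin lam E) := by
          rw [List.replicate_succ]
          rfl
        rw [e4, run_rep, iter_x]
        have e5 : (orb d (lin lam E) 1).y = (stepR^[d 0] (lin lam E)).z := rfl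
        rw [e5, hk]
      rw [e1, e2]
      have hx : (run (List.replicate k Mv.R) (stepR (lin lam E))).x ^ 2 < 1 + (lam / 2) ^ 2 := by
        rw [e3]
        exact hy
      exact (cmp hδ zero_le_one h1 hS hz _ hx).2.2
  · exact (cmpY hδ zero_le_one h1 hd (by omega) hS hz hy).2.2

/-- **SD-DIST.** -/
theorem dist (h : TPD) : TDist := by
  intro lam hlam d hd m
  obtain ⟨F, hF1, hF, hF2⟩ := Pool.Agent.W965.Stu.tPoly lam d m hd
  have hder : ∀ E, F.derivative.eval E = -(Vy d m (lin lam E)) / lam := by
    intro E
    have h1 := hasDeriv_level hlam d m E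
    have e : (fun e => (orb d (lin lam e) m).y) = fun e => F.eval e := by
      funext e
      rw [hF]
    rw [e] at h1
    exact (F.hasDerivAt E).unique h1
  have hVy : ∀ E, |Vy d m (lin lam E)| = |lam| * |F.derivative.eval E| := by
    intro E
    rw [hder, abs_div, abs_neg]
    field_simp
  have hlam' : 0 < |lam| := abs_pos.2 hlam
  have p1 : ∀ E, |(orb d (lin lam E) m).y| < cc (lam / 2) → Vy d m (lin lam E) ≠ 0 :=
    fun E hE => Vy_ne hlam hd m E hE
  have hne : ∀ E, |F.eval E| < cc (lam / 2) → F.derivative.eval E ≠ 0 := by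
    intro E hE
    rw [hder]
    rw [hF] at hE
    exact div_ne_zero (neg_ne_zero.2 (p1 E hE)) hlam
  obtain ⟨L1, L2⟩ := Pool.Agent.W174.Stu.tLag F (cc (lam / 2)) (cc_pos _) hF1 hF2 hne
  refine ⟨p1, ?_⟩
  intro κ hκ hκc
  have PD : ∀ a b : ℝ, (∀ e ∈ Set.uIcc a b, |F.eval e| ≤ κ) →
      |F.derivative.eval a| ≤
        Real.exp (2 * κ / (cc (lam / 2) - κ)) * |F.derivative.eval b| :=
    h F (cc (lam / 2)) κ hκ hκc hne L1
  set K := Real.exp (2 * κ / (cc (lam / 2) - κ)) with hK
  have hK0 : 0 < K := Real.exp_pos _
  refine ⟨?_, ?_⟩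
  · intro E E' hEE
    have hEE' : ∀ e ∈ Set.uIcc E E', |F.eval e| ≤ κ := by
      intro e he
      rw [hF]
      exact hEE e he
    refine ⟨?_, ?_⟩
    · rw [hVy, hVy]
      have := PD E E' hEE'
      calc |lam| * |F.derivative.eval E| ≤ |lam| * (K * |F.derivative.eval E'|) := by gcongr
        _ = _ := by ring
    · -- mean value theorem
      have mv : ∀ a b : ℝ, a < b → (∀ e ∈ Set.Icc a b, |F.eval e| ≤ κ) →
          ∃ ξ ∈ Set.Ioo a b, (b - a) * |F.derivative.eval ξ| ≤ 2 * κ := by
        intro a b hab hab'
        obtain ⟨ξ, hξ, hs⟩ := exists_hasDerivAt_eq_slope (fun x => F.eval x)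
          (fun x => F.derivative.eval x) hab F.continuous.continuousOn
          (fun x _ => F.hasDerivAt x)
        refine ⟨ξ, hξ, ?_⟩
        have hba : 0 < b - a := by linarith
        rw [hs, abs_div, abs_of_pos hba, mul_div_cancel₀ _ hba.ne']
        have e1 := hab' a (Set.left_mem_Icc.2 hab.le)
        have e2 := hab' b (Set.right_mem_Icc.2 hab.le)
        calc |F.eval b - F.eval a| ≤ |F.eval b| + |F.eval a| := abs_sub _ _
          _ ≤ 2 * κ := by linarith
      have key : |E - E'| * |F.derivative.eval E| ≤ 2 * κ * K := by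
        rcases lt_trichotomy E E' with hlt | heq | hgt
        · rw [Set.uIcc_of_le hlt.le] at hEE'
          obtain ⟨ξ, hξ, h1⟩ := mv E E' hlt hEE'
          have h2 := PD E ξ (by
            intro e he
            rw [Set.uIcc_of_le hξ.1.le] at he
            exact hEE' e ⟨he.1, he.2.trans hξ.2.le⟩)
          rw [abs_of_neg (by linarith : E - E' < 0)]
          calc -(E - E') * |F.derivative.eval E| ≤
              -(E - E') * (K * |F.derivative.eval ξ|) := by
                apply mul_le_mul_of_nonneg_left h2
                linarith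
            _ = K * ((E' - E) * |F.derivative.eval ξ|) := by ring
            _ ≤ K * (2 * κ) := by gcongr
            _ = _ := by ring
        · rw [heq]
          simp only [sub_self, abs_zero, zero_mul]
          positivity
        · rw [Set.uIcc_of_ge hgt.le] at hEE'
          obtain ⟨ξ, hξ, h1⟩ := mv E' E hgt hEE'
          have h2 := PD E ξ (by
            intro e he
            rw [Set.uIcc_of_ge hξ.2.le] at he
            exact hEE' e ⟨hξ.1.le.trans he.1, he.2⟩)
          rw [abs_of_pos (by linarith : 0 < E - E')]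
          calc (E - E') * |F.derivative.eval E| ≤
              (E - E') * (K * |F.derivative.eval ξ|) := by
                apply mul_le_mul_of_nonneg_left h2
                linarith
            _ = K * ((E - E') * |F.derivative.eval ξ|) := by ring
            _ ≤ K * (2 * κ) := by gcongr
            _ = _ := by ring
      rw [hVy]
      calc |E - E'| * (|lam| * |F.derivative.eval E|) =
          |lam| * (|E - E'| * |F.derivative.eval E|) := by ring
        _ ≤ |lam| * (2 * κ * K) := by gcongr
        _ = _ := by ring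
  · intro E hE
    rw [← hF] at hE
    obtain ⟨u, v, h1, h2, h3, h4, h5⟩ := L2 E κ hκ hκc hE
    refine ⟨u, v, h1, h2, h3, ?_, ?_⟩
    · intro e he
      rw [← hF]
      exact h4 e he
    · rw [← hF, ← hF]
      exact h5

end Pool.Agent.W965.Stu.Dist
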