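import Mathlib
import Pool.Agent.W811.Stu.Stmts
import Pool.Agent.H695R3.ST.Static
import Pool.Agent.H695R3.ST.Near
import Pool.Agent.W965.Stu.Tr

/-!
The spectrum of the Sturmian operator is given by the trace condition.
-/

set_option autoImplicit false

namespace Pool.Agent.W965.Stu

open Filter Topology Polynomial
open Pool.Agent.W811.Stu Pool.Agent.H695R3.ST Pool.Agent.Helper434.PSCplx

variable {α lam : ℝ}

/-! ### periodic approximants -/

/-- the spectrum of a periodic operator is in `{|D| ≤ 2}` -/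
lemma spec_periodic {V : ℤ → ℝ} {q : ℕ} (hq : 1 ≤ q) (hV : ∀ n, V (n + q) = V n)
    {H : L2 →L[ℂ] L2} (hH : IsSchr V H) (hs : IsSelfAdjoint H) {E : ℝ}
    (hE : E ∈ spectrum ℝ H) : ((D V 0 q).eval E) ^ 2 ≤ 4 := by
  by_contra hc
  rw [not_le] at hc
  have hmag : ∀ m, m ∉ (∅ : Finset ℤ) → (aeval H (D V 0 q)) (dl m) = dl (m + q) + dl (m - q) := by
    intro m _
    rw [← D_const hq hV m]
    apply magic hH
    intro j _
    rw [← hV (m - q + j)]
    congr 1
    ring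
  have := few_outside hs hmag {E} (by
    intro E' hE'
    rw [Finset.mem_singleton] at hE'
    rw [hE']
    exact ⟨hE, hc⟩)
  simp at this

lemma Wp_bound (hlam : 0 ≤ lam) {p q : ℕ} (hq : 0 < q) (hpq : p ≤ q) (n : ℤ) :
    |Wp lam p q n| ≤ lam := by
  obtain ⟨k1, k2⟩ := ediv_step hq (n * p) p (Int.natCast_nonneg p) (by exact_mod_cast hpq)
  have e : (n + 1) * (p : ℤ) = n * p + p := by ring
  unfold Wp
  rw [e]
  have r1 : ((n * p / q : ℤ) : ℝ) ≤ ((n * p + p : ℤ) / (q : ℤ) : ℤ) := by exact_mod_cast k1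
  have r2 : (((n * p + p : ℤ) / (q : ℤ) : ℤ) : ℝ) ≤ ((n * p / q : ℤ) : ℝ) + 1 := by
    exact_mod_cast k2
  rw [abs_mul, abs_of_nonneg hlam]
  apply mul_le_of_le_one_right hlam
  rw [abs_of_nonneg (by linarith)]
  linarith

/-- floors at irrational multiples are stable -/
lemma floor_stable (hα : Irrational α) (n : ℤ) :
    ∃ ε : ℝ, 0 < ε ∧ ∀ β : ℝ, |β - α| < ε → ⌊(n : ℝ) * β⌋ = ⌊(n : ℝ) * α⌋ := by
  rcases eq_or_ne n 0 with hn | hn
  · exact ⟨1, one_pos, fun β _ => by rw [hn]; simp⟩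
  · have hirr : Irrational ((n : ℝ) * α) := hα.intCast_mul hn
    set F : ℤ := ⌊(n : ℝ) * α⌋ with hF
    have f1 : (F : ℝ) < n * α := lt_of_le_of_ne (Int.floor_le _) (hirr.ne_int F).symm
    have f2 : (n : ℝ) * α < F + 1 := Int.lt_floor_add_one _
    have hc : Continuous fun β : ℝ => (n : ℝ) * β := by fun_prop
    have ho : IsOpen ((fun β : ℝ => (n : ℝ) * β) ⁻¹' Set.Ioo (F : ℝ) (F + 1)) :=
      isOpen_Ioo.preimage hc
    obtain ⟨ε, hε, hb⟩ := Metric.isOpen_iff.1 ho α ⟨f1, f2⟩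
    refine ⟨ε, hε, fun β hβ => ?_⟩
    have h3 : β ∈ Metric.ball α ε := by rw [Metric.mem_ball, Real.dist_eq]; exact hβ
    obtain ⟨g1, g2⟩ := hb h3
    rw [Int.floor_eq_iff]
    exact ⟨g1.le, g2⟩

/-- the convergents -/
lemma conv_near (hα : Irrational α) (h0 : 0 < α) (h1 : α < 1) (m : ℕ) :
    |(PP (dig α) (m + 2) : ℝ) / QQ (dig α) (m + 2) - α| ≤ 1 / (m + 1) := by
  have ha := fun k => dig_pos hα h0 h1 k
  have hq := QQ_large ha m
  have hq3 := QQ_pos ha (m + 2)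
  have s2 := (del_small hα h0 h1 (m + 2)).resolve_right (by omega)
  have hqr : ((m : ℝ) + 1) ≤ QQ (dig α) (m + 2) := by exact_mod_cast hq
  have hq3r : (1 : ℝ) ≤ QQ (dig α) (m + 2 + 1) := by exact_mod_cast hq3
  have hm : (0 : ℝ) < (m : ℝ) + 1 := by positivity
  have hqp : (0 : ℝ) < QQ (dig α) (m + 2) := by linarith
  have e : (PP (dig α) (m + 2) : ℝ) / QQ (dig α) (m + 2) - α =
      -(del α (m + 2)) / QQ (dig α) (m + 2) := by
    unfold del
    field_simp
    ring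
  rw [e, abs_div, abs_neg, abs_of_pos hqp]
  have h4 : |del α (m + 2)| ≤ 1 := by
    have h5 := abs_nonneg (del α (m + 2))
    nlinarith
  exact div_le_div₀ (by norm_num) h4 hm hqr

/-- the potentials of the approximants -/
noncomputable def W (lam α : ℝ) (m : ℕ) : ℤ → ℝ :=
  Wp lam (PP (dig α) (m + 2)) (QQ (dig α) (m + 2))

lemma W_eventually (lam : ℝ) (hα : Irrational α) (h0 : 0 < α) (h1 : α < 1) (n : ℤ) :
    ∀ᶠ m in atTop, W lam α m n = pot lam α 0 n := by
  obtain ⟨ε₁, hε₁, hb₁⟩ := floor_stable hα n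
  obtain ⟨ε₂, hε₂, hb₂⟩ := floor_stable hα (n + 1)
  have ha := fun k => dig_pos hα h0 h1 k
  have hlim : Tendsto (fun m : ℕ => 1 / ((m : ℝ) + 1)) atTop (𝓝 0) :=
    tendsto_one_div_add_atTop_nhds_zero_nat
  filter_upwards [hlim.eventually (gt_mem_nhds (lt_min hε₁ hε₂))] with m hm
  have hq : 0 < QQ (dig α) (m + 2) := QQ_pos ha (m + 1)
  have hn := conv_near hα h0 h1 m
  have key : ∀ k : ℤ, ⌊(k : ℝ) * ((PP (dig α) (m + 2) : ℝ) / QQ (dig α) (m + 2))⌋ =
      k * PP (dig α) (m + 2) / (QQ (dig α) (m + 2) : ℤ) := by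
    intro k
    have hqr : (0 : ℝ) < QQ (dig α) (m + 2) := by exact_mod_cast hq
    have := floor_near hq (k * PP (dig α) (m + 2)) (le_refl (0:ℝ)) (by positivity)
    rw [← this]
    congr 1
    push_cast
    ring
  unfold W Wp
  rw [pot_eq h0 h1, ← key, ← key, hb₁ _ (lt_of_le_of_lt hn (lt_of_lt_of_le hm (min_le_left _ _))),
    hb₂ _ (lt_of_le_of_lt hn (lt_of_lt_of_le hm (min_le_right _ _)))]

/-- the discriminants of the approximants for odd `m` (that is `m + 1` even) -/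
lemma D_W (lam : ℝ) (hα : Irrational α) (h0 : 0 < α) (h1 : α < 1) {m : ℕ} (hm : Odd m) (E : ℝ) :
    (D (W lam α m) 0 (QQ (dig α) (m + 2))).eval E = 2 * (orb (dig α) (lin lam E) (m + 1)).y := by
  have ha := fun k => dig_pos hα h0 h1 k
  have hq : 1 ≤ QQ (dig α) (m + 2) := QQ_pos ha (m + 1)
  have hV : ∀ n, W lam α m (n + QQ (dig α) (m + 2)) = W lam α m n := Wp_period lam hq
  rw [orb_y_D hα h0 h1 m, ← D_const hq hV 1]
  unfold D
  congr 2
  apply P_congr
  intro j hj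
  have hm' : Even (m + 1) := hm.add_one
  have h3 := QQ_add ha (m + 1)
  have h4 := QQ_pos ha m
  have e1 : QQ (dig α) (m + 1 + 1) = QQ (dig α) (m + 2) := rfl
  have e2 : QQ (dig α) (m + 1 + 2) = QQ (dig α) (m + 3) := rfl
  rw [e1, e2] at h3
  have := pot_Wp (lam := lam) hα h0 h1 hm' (n := 1 + j) (by omega) (by
    have e3 : QQ (dig α) (m + 1 + 2) = QQ (dig α) (m + 3) := rfl
    rw [e3]
    omega)
  rw [this]
  rfl

/-! ### energies which escape are not in the spectrum -/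

lemma norm_sq_diff {V V' : ℤ → ℝ} {H H' : L2 →L[ℂ] L2} (hH : IsSchr V H) (hH' : IsSchr V' H')
    (ψ : L2) : HasSum (fun n => |V n - V' n| ^ 2 * ‖ψ n‖ ^ 2) (‖H ψ - H' ψ‖ ^ 2) := by
  have h := hasSum_sq (H ψ - H' ψ)
  have e : (fun n => ‖(H ψ - H' ψ) n‖ ^ 2) = fun n => |V n - V' n| ^ 2 * ‖ψ n‖ ^ 2 := by
    funext n
    rw [lp.coeFn_sub, Pi.sub_apply, hH, hH']
    have : ψ (n + 1) + ψ (n - 1) + (V n : ℂ) * ψ n - (ψ (n + 1) + ψ (n - 1) + (V' n : ℂ) * ψ n) =
        ((V n - V' n : ℝ) : ℂ) * ψ n := by push_cast; ring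
    rw [this, norm_mul, Complex.norm_real, Real.norm_eq_abs, mul_pow]
  rw [e] at h
  exact h

lemma strong_conv (hlam : 0 ≤ lam) (hα : Irrational α) (h0 : 0 < α) (h1 : α < 1)
    {H : L2 →L[ℂ] L2} (hH : IsSchr (pot lam α 0) H) {Hm : ℕ → (L2 →L[ℂ] L2)}
    (hHm : ∀ m, IsSchr (W lam α m) (Hm m)) (ψ : L2) :
    Tendsto (fun m => ‖H ψ - Hm m ψ‖ ^ 2) atTop (𝓝 0) := by
  have ha := fun k => dig_pos hα h0 h1 k
  have hWb : ∀ m n, |W lam α m n| ≤ lam := fun m n =>
    Wp_bound hlam (QQ_pos ha (m + 1)) (PP_le ha m).2 n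
  have hs : ∀ m, ‖H ψ - Hm m ψ‖ ^ 2 = ∑' n, |pot lam α 0 n - W lam α m n| ^ 2 * ‖ψ n‖ ^ 2 :=
    fun m => (norm_sq_diff hH (hHm m) ψ).tsum_eq.symm
  simp only [hs]
  have key : Tendsto (fun m => ∑' n, |pot lam α 0 n - W lam α m n| ^ 2 * ‖ψ n‖ ^ 2) atTop
      (𝓝 (∑' _n : ℤ, (0 : ℝ))) := ?_
  · rwa [tsum_zero] at key
  apply tendsto_tsum_of_dominated_convergence (bound := fun n => (2 * lam) ^ 2 * ‖ψ n‖ ^ 2)
  · exact ((hasSum_sq ψ).mul_left _).summable
  · intro n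
    apply tendsto_const_nhds.congr'
    filter_upwards [W_eventually lam hα h0 h1 n] with m hm
    rw [hm]
    simp
  · filter_upwards with m n
    rw [Real.norm_eq_abs, abs_of_nonneg (by positivity)]
    apply mul_le_mul_of_nonneg_right _ (by positivity)
    apply pow_le_pow_left₀ (abs_nonneg _)
    have t1 := abs_sub (pot lam α 0 n) (W lam α m n)
    have t2 := pot_bound hlam α 0 n
    have t3 := hWb m n
    linarith

theorem not_mem_of_esc (hlam : 0 ≤ lam) (hα : Irrational α) (h0 : 0 < α) (h1 : α < 1)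
    {H : L2 →L[ℂ] L2} (hH : IsSchr (pot lam α 0) H) {E : ℝ} {m₀ : ℕ}
    (hE : Esc (orb (dig α) (lin lam E) m₀)) : E ∉ spectrum ℝ H := by
  intro hsp
  have ha := fun k => dig_pos hα h0 h1 k
  have hWb : ∀ m n, |W lam α m n| ≤ lam := fun m n =>
    Wp_bound hlam (QQ_pos ha (m + 1)) (PP_le ha m).2 n
  have hex := fun m => exists_schr (hWb m)
  choose Hm hHm hsm using hex
  have hs : IsSelfAdjoint H := schr_sa (pot_bound hlam α 0) hH
  obtain ⟨ε, hε, hb⟩ := Metric.isOpen_iff.1 (esc_open lam (dig α) m₀) E hE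
  obtain ⟨ψ, hψ0, hψ⟩ := weyl_fwd hs hsp (by positivity : 0 < ε / 4)
  have hψn : 0 < ‖ψ‖ := norm_pos_iff.2 hψ0
  have hsc := strong_conv hlam hα h0 h1 hH hHm ψ
  have hpos : 0 < (ε / 4 * ‖ψ‖) ^ 2 := by positivity
  obtain ⟨M, hM⟩ := eventually_atTop.1 (hsc.eventually (gt_mem_nhds hpos))
  -- an odd index
  set m := 2 * (M + m₀) + 1 with hm
  have hodd : Odd m := ⟨M + m₀, rfl⟩
  have h3 := hM m (by omega)
  have h4 : ‖H ψ - Hm m ψ‖ ≤ ε / 4 * ‖ψ‖ := by
    by_contra hc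
    rw [not_le] at hc
    have := pow_le_pow_left₀ (by positivity) hc.le 2
    linarith
  have h5 : ‖Hm m ψ - (E : ℂ) • ψ‖ ≤ ε / 2 * ‖ψ‖ := by
    have e : Hm m ψ - (E : ℂ) • ψ = (H ψ - (E : ℂ) • ψ) - (H ψ - Hm m ψ) := by abel
    rw [e]
    refine (norm_sub_le _ _).trans ?_
    linarith
  obtain ⟨E', hE', hd⟩ := weyl_bwd (hsm m) hψ0 h5
  have h6 : E' ∈ Metric.ball E ε := by
    rw [Metric.mem_ball, Real.dist_eq, abs_sub_comm]
    linarith
  have h7 : Esc (orb (dig α) (lin lam E') m₀) := hb h6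
  have hq : 1 ≤ QQ (dig α) (m + 2) := QQ_pos ha (m + 1)
  have h8 := spec_periodic hq (Wp_period lam hq) (hHm m) (hsm m) hE'
  have h9 : (D (W lam α m) 0 (QQ (dig α) (m + 2))).eval E' ^ 2 ≤ 4 := h8
  rw [D_W lam hα h0 h1 hodd] at h9
  have h10 := (esc_all ha h7 (m + 1 - m₀)).1
  rw [show m₀ + (m + 1 - m₀) = m + 1 by omega] at h10
  have h11 : 1 < |(orb (dig α) (lin lam E') (m + 1)).y| ^ 2 := one_lt_pow₀ h10 two_ne_zero
  rw [sq_abs] at h11
  nlinarith

/-! ### energies satisfying the trace condition are near the spectrum -/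

/-- a solution on a half line which is quasiperiodic for three periods gives a spectral point -/
theorem near_of_bloch {V : ℤ → ℝ} {H : L2 →L[ℂ] L2} (hH : IsSchr V H) (hs : IsSelfAdjoint H)
    {q : ℕ} (hq : 2 ≤ q) (hV : ∀ n : ℤ, 0 < n → n ≤ 2 * q → V (n + q) = V n) {E : ℝ}
    (hD : ((D V 1 q).eval E) ^ 2 ≤ 4) {η : ℝ} (hη : 0 < η) (hη2 : 4 ≤ η ^ 2 * q) :
    ∃ E' ∈ spectrum ℝ H, |E - E'| ≤ η := by
  obtain ⟨ζ, hζ1, hζ⟩ := bloch_root hD
  have hζ' : ζ ^ 2 - aeval (E : ℂ) (D V 1 q) * ζ + 1 = 0 := by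
    have : (aeval (E : ℂ) (D V 1 q) : ℂ) = (((D V 1 q).eval E : ℝ) : ℂ) := by
      have h2 : (E : ℂ) = algebraMap ℝ ℂ E := rfl
      rw [h2, aeval_algebraMap_apply, coe_aeval_eq_eval]
      rfl
    rw [this]
    exact hζ
  obtain ⟨u, hu0, hu, huq, huq1⟩ := exists_bloch V 1 q (E : ℂ) ζ hζ'
  -- quasiperiodicity
  have hqp : ∀ k : ℕ, k ≤ 2 * q → u (k + q) = ζ * u k ∧ u (k + 1 + q) = ζ * u (k + 1) := by
    intro k
    induction k with
    | zero =>
      intro _
      rw [zero_add, zero_add, add_comm 1 q]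
      exact ⟨huq, huq1⟩
    | succ k ih =>
      intro hk
      obtain ⟨i1, i2⟩ := ih (by omega)
      refine ⟨i2, ?_⟩
      have e1 : k + 1 + 1 + q = (k + q) + 2 := by ring
      have e2 : k + q + 1 = k + 1 + q := by ring
      rw [e1, hu (k + q), e2, i1, i2, show k + 1 + 1 = k + 2 from rfl, hu k]
      have h3 := hV (1 + k) (by omega) (by omega)
      have e3 : (1 : ℤ) + ((k + q : ℕ) : ℤ) = 1 + k + q := by push_cast; ring
      rw [e3, h3]
      ring
  set a : ℕ → ℝ := fun k => ‖u k‖ ^ 2 with ha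
  have hper : ∀ k : ℕ, k ≤ 2 * q + 1 → a (k + q) = a k := by
    intro k hk
    have : u (k + q) = ζ * u k := by
      rcases Nat.eq_zero_or_pos k with h | h
      · rw [h, zero_add]; exact huq
      · obtain ⟨r, rfl⟩ : ∃ r, k = r + 1 := ⟨k - 1, by omega⟩
        exact (hqp r (by omega)).2
    simp only [ha]
    rw [this, norm_mul, hζ1, one_mul]
  set S : ℝ := ∑ k ∈ Finset.range q, a k with hS
  have hann : ∀ k, 0 ≤ a k := fun k => by positivity
  have hSpos : 0 < S := by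
    rcases hu0 with h | h
    · have h2 : a 0 ≤ S := Finset.single_le_sum (fun k _ => hann k) (Finset.mem_range.2 (by omega))
      have h3 : 0 < a 0 := by
        have := norm_pos_iff.2 h
        positivity
      linarith
    · have h2 : a 1 ≤ S := Finset.single_le_sum (fun k _ => hann k) (Finset.mem_range.2 (by omega))
      have h3 : 0 < a 1 := by
        have := norm_pos_iff.2 h
        positivity
      linarith
  -- sums over a period
  have hwin : ∀ j : ℕ, j ≤ 2 * q → ∑ i ∈ Finset.range q, a (j + i) = S := by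
    intro j
    induction j with
    | zero => intro _; simp only [zero_add]; rfl
    | succ j ih =>
      intro hj
      rw [← ih (by omega)]
      have e1 := Finset.sum_range_succ (fun i => a (j + i)) q
      have e2 := Finset.sum_range_succ' (fun i => a (j + i)) q
      have e3 : ∀ i, a (j + (i + 1)) = a (j + 1 + i) := fun i => by congr 1; ring
      simp only [e3, add_zero] at e2
      have e4 := hper j (by omega)
      rw [e1] at e2
      linarith
  -- a good place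
  have hex : ∃ j ∈ Finset.range q, (q : ℝ) * (a (j + 1) + a j) ≤ 2 * S := by
    by_contra hc
    have hc' : ∀ j ∈ Finset.range q, 2 * S < (q : ℝ) * (a (j + 1) + a j) := by
      intro j hj
      by_contra h
      exact hc ⟨j, hj, not_lt.1 h⟩
    have h2 := Finset.sum_lt_sum_of_nonempty (Finset.nonempty_range_iff.2 (by omega)) hc'
    rw [Finset.sum_const, Finset.card_range, nsmul_eq_mul, ← Finset.mul_sum,
      Finset.sum_add_distrib] at h2
    have h3 := hwin 1 (by omega)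
    have h4 := hwin 0 (by omega)
    simp only [zero_add] at h4
    have h5 : ∑ i ∈ Finset.range q, a (i + 1) = S := by
      rw [← h3]
      apply Finset.sum_congr rfl
      intro i _
      rw [add_comm]
    rw [h5, h4] at h2
    linarith
  obtain ⟨j₀, hj₀, hj⟩ := hex
  rw [Finset.mem_range] at hj₀
  -- the truncated vector
  set ψ : ℤ → ℂ := fun n => u n.toNat with hψ
  set j : ℤ := (j₀ : ℤ) + 1 with hjd
  set R : ℕ := 2 * q with hR
  have hform : ∀ n : ℤ, 0 < n → form V E ψ n = 0 := by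
    intro n hn
    obtain ⟨k, hk⟩ : ∃ k : ℕ, n = k + 1 := ⟨(n - 1).toNat, by omega⟩
    unfold form
    simp only [hψ]
    have t1 : (n + 1).toNat = k + 2 := by omega
    have t2 : (n - 1).toNat = k := by omega
    have t3 : n.toNat = k + 1 := by omega
    rw [t1, t2, t3, hu k]
    have t4 : (1 : ℤ) + k = n := by omega
    rw [t4]
    push_cast
    ring
  have herr := truncVec_err (V := V) (V' := V) hH ψ E j 0 (R := R) (by omega)
    (fun n _ _ => by rw [add_zero])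
  have hnorm := norm_truncVec ψ j 0 R
  have hz : ∑ i ∈ Finset.range R, ‖form V E ψ (j + i)‖ ^ 2 = 0 := by
    apply Finset.sum_eq_zero
    intro i _
    rw [hform _ (by omega), norm_zero]
    norm_num
  have v1 : ‖ψ j‖ ^ 2 = a (j₀ + 1) := by
    simp only [hψ, ha]
    rw [show j.toNat = j₀ + 1 by omega]
  have v2 : ‖ψ (j - 1)‖ ^ 2 = a j₀ := by
    simp only [hψ, ha]
    rw [show (j - 1).toNat = j₀ by omega]
  have v3 : ‖ψ (j + R)‖ ^ 2 = a (j₀ + 1) := by
    have e : ‖ψ (j + R)‖ ^ 2 = a (j₀ + 1 + q + q) := by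
      simp only [hψ, ha]
      rw [show (j + (R : ℤ)).toNat = j₀ + 1 + q + q by omega]
    rw [e, hper _ (by omega), hper _ (by omega)]
  have v4 : ‖ψ (j + R - 1)‖ ^ 2 = a j₀ := by
    have e : ‖ψ (j + R - 1)‖ ^ 2 = a (j₀ + q + q) := by
      simp only [hψ, ha]
      rw [show (j + (R : ℤ) - 1).toNat = j₀ + q + q by omega]
    rw [e, hper _ (by omega), hper _ (by omega)]
  rw [hz, v1, v2, v3, v4] at herr
  have hn2 : ∑ i ∈ Finset.range R, ‖ψ (j + i)‖ ^ 2 = 2 * S := by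
    have e0 : ∀ i : ℕ, ‖ψ (j + i)‖ ^ 2 = a (j₀ + 1 + i) := by
      intro i
      simp only [hψ, ha]
      rw [show (j + (i : ℤ)).toNat = j₀ + 1 + i by omega]
    rw [Finset.sum_congr rfl (fun i _ => e0 i), hR, two_mul, Finset.sum_range_add,
      hwin _ (by omega)]
    have e1 : ∀ i ∈ Finset.range q, a (j₀ + 1 + (q + i)) = a (j₀ + 1 + i) := by
      intro i hi
      rw [Finset.mem_range] at hi
      rw [show j₀ + 1 + (q + i) = j₀ + 1 + i + q by ring, hper _ (by omega)]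
    rw [Finset.sum_congr rfl e1, hwin _ (by omega)]
    ring
  rw [hn2] at hnorm
  have hne : truncVec ψ j 0 R ≠ 0 := by
    intro h
    rw [h, norm_zero] at hnorm
    norm_num at hnorm
    linarith
  refine weyl_bwd hs hne ?_
  apply le_of_sq_le_sq _ (by positivity)
  rw [mul_pow, hnorm]
  refine herr.trans ?_
  have hqr : (0 : ℝ) < q := by
    have : 0 < q := by omega
    exact_mod_cast this
  have h6 : 4 * (q : ℝ) * (a (j₀ + 1) + a j₀) ≤ η ^ 2 * q * (2 * S) := by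
    calc 4 * (q : ℝ) * (a (j₀ + 1) + a j₀) = 4 * ((q : ℝ) * (a (j₀ + 1) + a j₀)) := by ring
      _ ≤ 4 * (2 * S) := by linarith
      _ ≤ η ^ 2 * q * (2 * S) := mul_le_mul_of_nonneg_right hη2 (by linarith)
  have h7 : (q : ℝ) * (4 * (a (j₀ + 1) + a j₀)) ≤ q * (η ^ 2 * (2 * S)) := by linarith
  have h8 := le_of_mul_le_mul_left h7 hqr
  linarith

theorem mem_of_Sp (hlam : 0 ≤ lam) (hα : Irrational α) (h0 : 0 < α) (h1 : α < 1)
    (hfreq : ∃ᶠ k in atTop, 3 ≤ dig α k ∧ 3 ≤ dig α (k + 1))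
    {H : L2 →L[ℂ] L2} (hH : IsSchr (pot lam α 0) H) {E : ℝ} (hE : E ∈ Sp lam (dig α)) :
    E ∈ spectrum ℝ H := by
  have ha := fun k => dig_pos hα h0 h1 k
  have hs : IsSelfAdjoint H := schr_sa (pot_bound hlam α 0) hH
  have hcl : IsClosed (spectrum ℝ H) := (spectrum.isCompact H).isClosed
  rw [← hcl.closure_eq, Metric.mem_closure_iff]
  intro ε hε
  obtain ⟨N, hN⟩ := exists_nat_gt (4 / (ε / 2) ^ 2)
  obtain ⟨k, hk, hk1, hk2⟩ := frequently_atTop.1 hfreq (N + 3)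
  have hmain : ∀ m : ℕ, N + 2 ≤ m → 3 ≤ dig α (m + 1) → |(orb (dig α) (lin lam E) (m + 1)).y| ≤ 1 →
      ∃ b ∈ spectrum ℝ H, dist E b < ε := by
    intro m hm hd hy
    have hq := QQ_large ha m
    have hqN : (N : ℝ) ≤ QQ (dig α) (m + 2) := by
      have : N ≤ QQ (dig α) (m + 2) := by omega
      exact_mod_cast this
    have hD : ((D (pot lam α 0) 1 (QQ (dig α) (m + 2))).eval E) ^ 2 ≤ 4 := by
      rw [← orb_y_D hα h0 h1 m]
      have := abs_le.1 hy
      nlinarith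
    have hV : ∀ n : ℤ, 0 < n → n ≤ 2 * (QQ (dig α) (m + 2) : ℕ) →
        pot lam α 0 (n + (QQ (dig α) (m + 2) : ℕ)) = pot lam α 0 n := by
      intro n hn hn2
      apply pot_shift hα h0 h1 (m + 1) hn
      have e1 : QQ (dig α) (m + 1 + 2) = dig α (m + 1) * QQ (dig α) (m + 2) + QQ (dig α) (m + 1) :=
        rfl
      have e2 : 3 * QQ (dig α) (m + 2) ≤ dig α (m + 1) * QQ (dig α) (m + 2) :=
        Nat.mul_le_mul hd (le_refl _)
      have e3 : 3 * QQ (dig α) (m + 2) ≤ QQ (dig α) (m + 1 + 2) := by rw [e1]; omega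
      omega
    obtain ⟨E', hE', hd'⟩ := near_of_bloch hH hs (by omega) hV hD (half_pos hε) (by
      rw [div_lt_iff₀ (by positivity)] at hN
      have : (N : ℝ) * (ε / 2) ^ 2 ≤ (ε / 2) ^ 2 * QQ (dig α) (m + 2) := by
        rw [mul_comm]
        exact mul_le_mul_of_nonneg_left hqN (by positivity)
      linarith)
    exact ⟨E', hE', by rw [Real.dist_eq]; linarith⟩
  obtain ⟨r, hr⟩ : ∃ r, k = r + 1 := ⟨k - 1, by omega⟩
  rcases hE k with h | h
  · rw [hr] at h hk1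
    exact hmain r (by omega) hk1 h
  · exact hmain k (by omega) hk2 h

/-- **Spectrum = trace condition.** -/
theorem tOp : TOp := by
  intro lam hlam α hα h0 h1 hfreq T hT
  have hH : IsSchr (pot lam α 0) T := by
    intro ψ n
    rw [hT ψ n, pot_eq h0 h1]
    congr 3
    push_cast
    ring
  have hconv : ∀ E : ℝ, (E : ℂ) ∈ spectrum ℂ T ↔ E ∈ spectrum ℝ T := by
    intro E
    exact (spectrum.algebraMap_mem_iff ℂ : algebraMap ℝ ℂ E ∈ spectrum ℂ T ↔ E ∈ spectrum ℝ T)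
  ext E
  change (E : ℂ) ∈ spectrum ℂ T ↔ _
  rw [hconv]
  constructor
  · intro hE
    by_contra hc
    obtain ⟨m, hm⟩ := exists_esc (fun k => dig_pos hα h0 h1 k) hc
    exact not_mem_of_esc hlam.le hα h0 h1 hH hm hE
  · intro hE
    exact mem_of_Sp hlam.le hα h0 h1 hfreq hH hE

end Pool.Agent.W965.Stu
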