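import Mathlib
import Pool.Agent.W811.Stu.Stmts2
import Pool.Agent.W174.Stu.Dig
import Pool.Agent.W340.SD.Meas
import Pool.Agent.W965.Stu.CF
import Pool.Agent.W965.Stu.Tr

/-!
A zero-one law for functions of the frequency, and the spectrum as a nested intersection.
-/

set_option autoImplicit false

open MeasureTheory Filter Topology Set

namespace Pool.Agent.W965.Stu

open Pool.Agent.W811.Stu

lemma ae_good : ∀ᵐ α ∂(volume.restrict (Ioo (0:ℝ) 1)), Irrational α ∧ α ∈ Ioo (0:ℝ) 1 := by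
  have h1 : ∀ᵐ α ∂(volume.restrict (Ioo (0:ℝ) 1)), Irrational α := by
    apply ae_restrict_of_ae
    have h2 : ∀ᵐ α : ℝ, α ∉ Set.range ((↑) : ℚ → ℝ) :=
      (Set.countable_range ((↑) : ℚ → ℝ)).ae_notMem volume
    exact h2
  filter_upwards [h1, ae_restrict_mem measurableSet_Ioo] with α a b
  exact ⟨a, b⟩

/-- preimages in a cylinder with a large digit have positive measure -/
lemma pos_pre {S : Set ℝ} (hS : S ⊆ Ioo 0 1) (h0 : volume S ≠ 0) (A : ℕ) :
    volume ({x | A ≤ dig x 0 ∧ gauss x ∈ S} ∩ Ioo 0 1) ≠ 0 := by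
  intro hD
  apply h0
  set D := {x | A ≤ dig x 0 ∧ gauss x ∈ S} ∩ Ioo (0:ℝ) 1 with hDdef
  have h1 : volume ((fun x : ℝ => x⁻¹ - ((A : ℝ) + 1)) '' D) = 0 := by
    apply addHaar_image_eq_zero_of_differentiableOn_of_addHaar_eq_zero volume _ hD
    intro x hx
    have hx0 : x ≠ 0 := hx.2.1.ne'
    exact ((differentiableAt_inv hx0).sub_const _).differentiableWithinAt
  refine measure_mono_null ?_ h1
  intro s hs
  obtain ⟨s0, s1⟩ := hS hs
  have hA : (0 : ℝ) ≤ A := Nat.cast_nonneg A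
  refine ⟨1 / (((A + 1 : ℕ) : ℝ) + s), ⟨⟨?_, ?_⟩, ?_, ?_⟩, ?_⟩
  · change A ≤ ⌊(1 / (((A + 1 : ℕ) : ℝ) + s))⁻¹⌋₊
    rw [one_div, inv_inv]
    apply Nat.le_floor
    push_cast
    linarith
  · rw [W174.Stu.gauss_branch (by omega) s0.le s1]
    exact hs
  · positivity
  · rw [div_lt_one (by positivity)]
    push_cast
    linarith
  · simp only [one_div, inv_inv]
    push_cast
    ring

lemma measurable_pre {S : Set ℝ} (hS : MeasurableSet S) (A : ℕ) :
    MeasurableSet {x : ℝ | A ≤ dig x 0 ∧ gauss x ∈ S} := by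
  have h1 : MeasurableSet {x : ℝ | A ≤ dig x 0} :=
    (W340.SD.measurable_dig 0) (measurableSet_Ici (a := A))
  exact h1.inter (W174.Stu.measurable_gauss hS)

/-- **Zero-one law.** -/
theorem zero_one {L : Type} [CompleteLinearOrder L] [TopologicalSpace L] [OrderTopology L]
    [DenselyOrdered L] [TopologicalSpace.SeparableSpace L] (f : ℝ → L)
    (hM : ∀ t, MeasurableSet {α : ℝ | Irrational α ∧ α ∈ Ioo (0:ℝ) 1 ∧ t ≤ f α}) (A : ℕ)
    (hA : ∀ᵐ α ∂(volume.restrict (Ioo (0:ℝ) 1)), ∀ n, A ≤ dig α n → f (gauss^[n + 1] α) ≤ f α) :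
    ∃ d : L, ∀ᵐ α ∂(volume.restrict (Ioo (0:ℝ) 1)), f α = d := by
  set S : L → Set ℝ := fun t => {α : ℝ | Irrational α ∧ α ∈ Ioo (0:ℝ) 1 ∧ t ≤ f α} with hSdef
  have hSsub : ∀ t, S t ⊆ Ioo 0 1 := fun t α h => h.2.1
  have key1 : ∀ t, volume (S t) ≠ 0 → ∀ᵐ α ∂(volume.restrict (Ioo (0:ℝ) 1)), t ≤ f α := by
    intro t ht
    have h1 := pos_pre (hSsub t) ht A
    have h2 := W174.Stu.tErg _ (measurable_pre (hM t) A) h1
    filter_upwards [h2, hA] with α h3 h4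
    obtain ⟨n, hn⟩ := h3
    have h5 : A ≤ dig α n := hn.1
    have h6 : gauss (gauss^[n] α) ∈ S t := hn.2
    rw [← Function.iterate_succ_apply' gauss n α] at h6
    exact h6.2.2.trans (h4 n h5)
  have key2 : ∀ t, volume (S t) = 0 → ∀ᵐ α ∂(volume.restrict (Ioo (0:ℝ) 1)), f α < t := by
    intro t ht
    have h1 : ∀ᵐ α ∂(volume.restrict (Ioo (0:ℝ) 1)), α ∉ S t :=
      ae_restrict_of_ae (measure_eq_zero_iff_ae_notMem.1 ht)
    filter_upwards [h1, ae_good] with α h2 h3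
    by_contra hc
    exact h2 ⟨h3.1, h3.2, not_lt.1 hc⟩
  obtain ⟨s, hsc, hsd⟩ := TopologicalSpace.exists_countable_dense L
  have hall : ∀ᵐ α ∂(volume.restrict (Ioo (0:ℝ) 1)), ∀ t ∈ s,
      (volume (S t) ≠ 0 → t ≤ f α) ∧ (volume (S t) = 0 → f α < t) := by
    rw [ae_ball_iff hsc]
    intro t _
    by_cases h : volume (S t) = 0
    · filter_upwards [key2 t h] with α h2
      exact ⟨fun h3 => absurd h h3, fun _ => h2⟩
    · filter_upwards [key1 t h] with α h2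
      exact ⟨fun _ => h2, fun h3 => absurd h3 h⟩
  refine ⟨sSup {t | t ∈ s ∧ volume (S t) ≠ 0}, ?_⟩
  filter_upwards [hall] with α hα
  apply le_antisymm
  · by_contra hc
    rw [not_le] at hc
    obtain ⟨t, hts, h1, h2⟩ := hsd.exists_between hc
    by_cases h : volume (S t) = 0
    · exact absurd h2 (not_lt.2 ((hα t hts).2 h).le)
    · exact absurd h1 (not_lt.2 (le_sSup ⟨hts, h⟩))
  · apply sSup_le
    intro t ht
    exact (hα t ht.1).1 ht.2

/-- almost every frequency has infinitely many pairs of digits at least `3` -/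
theorem freq3 : ∀ᵐ α ∂(volume.restrict (Ioo (0:ℝ) 1)),
    ∃ᶠ k in atTop, 3 ≤ dig α k ∧ 3 ≤ dig α (k + 1) := by
  set D1 : Set ℝ := {x | 3 ≤ dig x 0 ∧ gauss x ∈ Ioo (0:ℝ) 1} with hD1
  have m1 : MeasurableSet D1 := measurable_pre measurableSet_Ioo 3
  have p1 : volume (D1 ∩ Ioo 0 1) ≠ 0 := pos_pre (le_refl _) (by simp) 3
  set D2 : Set ℝ := {x | 3 ≤ dig x 0 ∧ gauss x ∈ D1 ∩ Ioo 0 1} with hD2
  have m2 : MeasurableSet D2 := measurable_pre (m1.inter measurableSet_Ioo) 3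
  have p2 : volume (D2 ∩ Ioo 0 1) ≠ 0 := pos_pre inter_subset_right p1 3
  have h1 := W174.Stu.tErg D2 m2 p2
  -- the exceptional set
  set B : Set ℝ := {x | x ∈ Ioo (0:ℝ) 1 ∧ ∀ n, gauss^[n] x ∉ D2} with hB
  have mB : MeasurableSet B := by
    have : B = Ioo 0 1 ∩ ⋂ n, (gauss^[n] ⁻¹' D2)ᶜ := by ext; simp [B]
    rw [this]
    exact measurableSet_Ioo.inter
      (MeasurableSet.iInter fun n => (W174.Stu.measurable_gauss_iterate n m2).compl)
  have vB : volume B = 0 := by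
    rw [ae_restrict_iff' measurableSet_Ioo] at h1
    have h2 : ∀ᵐ x : ℝ, x ∉ B := by
      filter_upwards [h1] with x hx hxB
      obtain ⟨n, hn⟩ := hx hxB.1
      exact hxB.2 n hn
    exact measure_eq_zero_iff_ae_notMem.2 h2
  have hN : ∀ᵐ α ∂(volume.restrict (Ioo (0:ℝ) 1)), ∀ N, gauss^[N] α ∉ B := by
    rw [ae_all_iff]
    intro N
    have h2 := W174.Stu.vol_iter B mB N
    rw [vB, mul_zero, nonpos_iff_eq_zero] at h2
    rw [ae_restrict_iff' measurableSet_Ioo]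
    filter_upwards [measure_eq_zero_iff_ae_notMem.1 h2] with x hx hx2 hx3
    exact hx ⟨hx3, hx2⟩
  filter_upwards [hN, ae_good] with α h2 h3
  rw [frequently_atTop]
  intro N
  have h4 := h2 N
  have h5 : gauss^[N] α ∈ Ioo (0:ℝ) 1 := by
    obtain ⟨-, a, b⟩ := orbit_mem h3.1 h3.2.1 h3.2.2 N
    exact ⟨a, b⟩
  have h6 : ∃ n, gauss^[n] (gauss^[N] α) ∈ D2 := by
    by_contra hc
    simp only [not_exists] at hc
    exact h4 ⟨h5, hc⟩
  obtain ⟨n, hn⟩ := h6
  rw [← Function.iterate_add_apply] at hn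
  refine ⟨n + N, by omega, ?_, ?_⟩
  · exact hn.1
  · have h7 : 3 ≤ dig (gauss (gauss^[n + N] α)) 0 := hn.2.1.1
    rw [← Function.iterate_succ_apply' gauss (n + N) α] at h7
    exact h7

/-! ### the spectrum as a nested intersection -/

lemma orb_congr {d d' : ℕ → ℕ} (p : P3) (n : ℕ) (h : ∀ k < n, d k = d' k) :
    orb d p n = orb d' p n := by
  induction n with
  | zero => rfl
  | succ n ih =>
    rw [orb, orb, ih (fun k hk => h k (by omega)), h n (by omega)]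

/-- approximations of the spectrum -/
def CC (lam R : ℝ) (n : ℕ) (d : ℕ → ℕ) : Set ℝ :=
  {E | E ∈ Icc (-R) R ∧ ∀ m < n, |(orb d (lin lam E) m).y| ≤ 1 ∨ |(orb d (lin lam E) (m + 1)).y| ≤ 1}

lemma CC_compact (lam R : ℝ) (n : ℕ) (d : ℕ → ℕ) : IsCompact (CC lam R n d) := by
  have h1 : IsClosed {E : ℝ | ∀ m < n, |(orb d (lin lam E) m).y| ≤ 1 ∨
      |(orb d (lin lam E) (m + 1)).y| ≤ 1} := by
    have : {E : ℝ | ∀ m < n, |(orb d (lin lam E) m).y| ≤ 1 ∨ |(orb d (lin lam E) (m + 1)).y| ≤ 1} =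
        ⋂ m, ⋂ (_ : m < n), ({E | |(orb d (lin lam E) m).y| ≤ 1} ∪
          {E | |(orb d (lin lam E) (m + 1)).y| ≤ 1}) := by
      ext E; simp
    rw [this]
    apply isClosed_iInter
    intro m
    apply isClosed_iInter
    intro _
    exact (isClosed_le (cont_orb lam d m).2.1.abs continuous_const).union
      (isClosed_le (cont_orb lam d (m + 1)).2.1.abs continuous_const)
  exact isCompact_Icc.inter_right h1

lemma CC_anti (lam R : ℝ) (n : ℕ) (d : ℕ → ℕ) : CC lam R (n + 1) d ⊆ CC lam R n d :=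
  fun _ h => ⟨h.1, fun m hm => h.2 m (by omega)⟩

lemma CC_congr (lam R : ℝ) (n : ℕ) (d d' : ℕ → ℕ) (h : ∀ k < n, d k = d' k) :
    CC lam R n d = CC lam R n d' := by
  ext E
  unfold CC
  constructor
  · intro hE
    refine ⟨hE.1, fun m hm => ?_⟩
    rw [← orb_congr _ m (fun k hk => h k (by omega)),
      ← orb_congr _ (m + 1) (fun k hk => h k (by omega))]
    exact hE.2 m hm
  · intro hE
    refine ⟨hE.1, fun m hm => ?_⟩
    rw [orb_congr _ m (fun k hk => h k (by omega)),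
      orb_congr _ (m + 1) (fun k hk => h k (by omega))]
    exact hE.2 m hm

lemma exists_R (hB : TBdd) {lam : ℝ} (hlam : 0 < lam) : ∃ R : ℝ, ∀ d : ℕ → ℕ, (∀ k, 1 ≤ d k) →
    Sp lam d = ⋂ n, CC lam R n d := by
  obtain ⟨C, hC⟩ := hB lam hlam
  refine ⟨2 * C, fun d hd => ?_⟩
  ext E
  simp only [mem_iInter]
  constructor
  · intro hE n
    refine ⟨?_, fun m _ => hE m⟩
    have h1 := (hC d hd E hE 0).2.1
    have h2 : (orb d (lin lam E) 0).y = E / 2 := rfl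
    rw [h2, abs_div, abs_of_pos (by norm_num : (0:ℝ) < 2)] at h1
    rw [mem_Icc, ← abs_le]
    linarith
  · intro hE m
    exact (hE (m + 1)).2 m (by omega)

lemma Sp_compact (hB : TBdd) {lam : ℝ} (hlam : 0 < lam) {d : ℕ → ℕ} (hd : ∀ k, 1 ≤ d k) :
    IsCompact (Sp lam d) := by
  obtain ⟨R, hR⟩ := exists_R hB hlam
  rw [hR d hd]
  exact (CC_compact lam R 0 d).of_isClosed_subset
    (isClosed_iInter fun n => (CC_compact lam R n d).isClosed) (iInter_subset _ 0)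

/-- the comparison from `Key`, for almost every frequency -/
theorem key_ae (hKey : Key) {lam : ℝ} (hlam : 0 < lam) : ∃ A : ℕ,
    ∀ᵐ α ∂(volume.restrict (Ioo (0:ℝ) 1)), ∀ n, A ≤ dig α n →
      ∀ r : NNReal, 0 < r → r < 1 → ∃ (C : NNReal) (g : ℝ → ℝ) (Q : Set ℝ), Q ⊆ Sp lam (dig α) ∧
        g '' Q = Sp lam (dig (gauss^[n + 1] α)) ∧ HolderOnWith C r g Q := by
  obtain ⟨A, hA⟩ := hKey lam hlam
  refine ⟨A, ?_⟩
  filter_upwards [ae_good, W174.Stu.tDig] with α h1 h2 n hn r hr0 hr1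
  obtain ⟨C, g, Q, a1, a2, a3⟩ := hA (dig α) (fun k => dig_pos h1.1 h1.2.1 h1.2.2 k) n hn h2 r hr0 hr1
  refine ⟨C, g, Q, a1, ?_, a3⟩
  rw [a2]
  congr 1
  funext k
  unfold dig
  rw [← Function.iterate_add_apply, add_comm k]

end Pool.Agent.W965.Stu
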