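import Mathlib
import Pool.Agent.W965.Stu.ZeroOne
import Pool.Agent.W965.Stu.Op

/-!
Assembly for the upper box dimension.
-/

set_option autoImplicit false

open MeasureTheory Filter Topology Set
open scoped NNReal ENNReal

namespace Pool.Agent.W965.Stu

open Pool.Agent.W811.Stu

/-! ### comparison of upper limits -/

lemma limsup_compare {ι κ : Type} {l : Filter ι} {m : Filter κ} [l.NeBot] (u : ι → ℝ)
    (v : κ → ℝ) (hv : ∀ᶠ k in m, 0 ≤ v k)
    (h : ∀ c : ℝ, 1 < c → ∃ φ : ι → κ, Tendsto φ l m ∧ ∀ᶠ i in l, u i ≤ c * v (φ i)) :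
    limsup (fun i => (u i : EReal)) l ≤ limsup (fun k => (v k : EReal)) m := by
  apply EReal.le_of_forall_lt_iff_le.1
  intro s hs
  have h1 : ∀ᶠ k in m, (v k : EReal) < s := eventually_lt_of_limsup_lt hs
  have hs0 : 0 < s := by
    obtain ⟨φ, hφ, -⟩ := h 2 (by norm_num)
    obtain ⟨i, a, b⟩ := ((hφ.eventually h1).and (hφ.eventually hv)).exists
    have : v (φ i) < s := by exact_mod_cast a
    linarith
  apply EReal.le_of_forall_lt_iff_le.1
  intro z hz
  have hz' : s < z := by exact_mod_cast hz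
  obtain ⟨φ, hφ, hu⟩ := h (z / s) ((one_lt_div hs0).2 hz')
  apply limsup_le_of_le
  · exact isCobounded_le_of_bot
  · filter_upwards [hu, hφ.eventually h1, hφ.eventually hv] with i a b c
    have b' : v (φ i) < s := by exact_mod_cast b
    have hzs : 0 < z / s := by
      have : 0 < z := hs0.trans hz'
      positivity
    have d : u i ≤ z := by
      calc u i ≤ z / s * v (φ i) := a
        _ ≤ z / s * s := mul_le_mul_of_nonneg_left b'.le hzs.le
        _ = z := by field_simp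
    exact_mod_cast d

/-! ### covering numbers -/

/-- coverings exist -/
lemma cov_exists {K : Set ℝ} (hK : IsCompact K) {ε : ℝ} (hε : 0 < ε) :
    ∃ t : Finset ℚ, K ⊆ ⋃ x ∈ t, Ioo ((x : ℝ) - ε) (x + ε) := by
  obtain ⟨t, ht⟩ := hK.elim_finite_subcover (fun x : ℚ => Ioo ((x : ℝ) - ε) (x + ε))
    (fun x => isOpen_Ioo) (by
      intro y _
      obtain ⟨x, hx1, hx2⟩ := exists_rat_btwn (show y - ε < y by linarith)
      rw [mem_iUnion]
      exact ⟨x, by linarith, by linarith⟩)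
  exact ⟨t, ht⟩

/-- covering number with rational centres -/
noncomputable def covQ (K : Set ℝ) (ε : ℝ) : ℕ :=
  sInf {N : ℕ | ∃ t : Finset ℚ, t.card = N ∧ K ⊆ ⋃ x ∈ t, Ioo ((x : ℝ) - ε) (x + ε)}

lemma covQ_spec {K : Set ℝ} (hK : IsCompact K) {ε : ℝ} (hε : 0 < ε) :
    ∃ t : Finset ℚ, t.card = covQ K ε ∧ K ⊆ ⋃ x ∈ t, Ioo ((x : ℝ) - ε) (x + ε) := by
  obtain ⟨t, ht⟩ := cov_exists hK hε
  exact Nat.sInf_mem (s := {N : ℕ | ∃ t : Finset ℚ, t.card = N ∧
    K ⊆ ⋃ x ∈ t, Ioo ((x : ℝ) - ε) (x + ε)}) ⟨t.card, t, rfl, ht⟩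

lemma covQ_le {K : Set ℝ} {ε : ℝ} (t : Finset ℚ)
    (ht : K ⊆ ⋃ x ∈ t, Ioo ((x : ℝ) - ε) (x + ε)) : covQ K ε ≤ t.card :=
  Nat.sInf_le ⟨t, rfl, ht⟩

lemma covN_le {K : Set ℝ} {ε : ℝ} (t : Finset ℝ)
    (ht : K ⊆ ⋃ x ∈ t, Icc (x - ε) (x + ε)) : covN K ε ≤ t.card :=
  Nat.sInf_le ⟨t, rfl, ht⟩

lemma covN_spec {K : Set ℝ} (hK : IsCompact K) {ε : ℝ} (hε : 0 < ε) :
    ∃ t : Finset ℝ, t.card = covN K ε ∧ K ⊆ ⋃ x ∈ t, Icc (x - ε) (x + ε) := by
  obtain ⟨t, ht⟩ := cov_exists hK hε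
  refine Nat.sInf_mem (s := {N : ℕ | ∃ t : Finset ℝ, t.card = N ∧
    K ⊆ ⋃ x ∈ t, Icc (x - ε) (x + ε)}) ⟨_, t.image (fun q : ℚ => (q : ℝ)), rfl, ?_⟩
  intro y hy
  obtain ⟨x, hx, hx2⟩ := mem_iUnion₂.1 (ht hy)
  exact mem_iUnion₂.2 ⟨x, Finset.mem_image_of_mem _ hx, hx2.1.le, hx2.2.le⟩

lemma covN_le_covQ {K : Set ℝ} (hK : IsCompact K) {ε ε' : ℝ} (hε : 0 < ε') (h : ε' ≤ ε) :
    covN K ε ≤ covQ K ε' := by
  obtain ⟨t, ht, hc⟩ := covQ_spec hK hε
  rw [← ht]
  refine (covN_le (t.image (fun q : ℚ => (q : ℝ))) ?_).trans Finset.card_image_le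
  intro y hy
  obtain ⟨x, hx, hx2⟩ := mem_iUnion₂.1 (hc hy)
  refine mem_iUnion₂.2 ⟨x, Finset.mem_image_of_mem _ hx, ?_, ?_⟩
  · linarith [hx2.1]
  · linarith [hx2.2]

lemma covQ_le_covN {K : Set ℝ} (hK : IsCompact K) {ε ε' : ℝ} (hε : 0 < ε') (h : ε' < ε) :
    covQ K ε ≤ covN K ε' := by
  obtain ⟨t, ht, hc⟩ := covN_spec hK hε
  rw [← ht]
  have hch : ∀ x : ℝ, ∃ q : ℚ, x < q ∧ (q : ℝ) < x + (ε - ε') := fun x =>
    exists_rat_btwn (by linarith)
  choose φ h1 h2 using hch
  refine (covQ_le (t.image φ) ?_).trans Finset.card_image_le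
  intro y hy
  obtain ⟨x, hx, hx2⟩ := mem_iUnion₂.1 (hc hy)
  refine mem_iUnion₂.2 ⟨φ x, Finset.mem_image_of_mem _ hx, ?_, ?_⟩
  · linarith [h2 x, hx2.1]
  · linarith [h1 x, hx2.2]

/-- images under Hölder maps -/
lemma covN_image {K Q : Set ℝ} (hK : IsCompact K) (hQ : Q ⊆ K) {g : ℝ → ℝ} {C r : ℝ≥0}
    (hg : HolderOnWith C r g Q) {ε δ : ℝ} (hε : 0 < ε) (hδ : (C : ℝ) * (2 * ε) ^ (r : ℝ) ≤ δ) :
    covN (g '' Q) δ ≤ covN K ε := by
  classical
  obtain ⟨t, ht, hc⟩ := covN_spec hK hε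
  rw [← ht]
  -- choose a point of `Q` in every interval, if there is one
  set φ : ℝ → ℝ := fun x => if h : ∃ y ∈ Q, y ∈ Icc (x - ε) (x + ε) then g h.choose else 0 with hφ
  refine (covN_le (t.image φ) ?_).trans Finset.card_image_le
  rintro _ ⟨y, hy, rfl⟩
  obtain ⟨x, hx, hx2⟩ := mem_iUnion₂.1 (hc (hQ hy))
  have hex : ∃ y ∈ Q, y ∈ Icc (x - ε) (x + ε) := ⟨y, hy, hx2⟩
  have e1 : φ x = g hex.choose := by
    simp only [hφ]
    rw [dif_pos hex]
  obtain ⟨hyQ, hyI⟩ := hex.choose_spec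
  set y' := hex.choose with hy'
  have hd : dist y y' ≤ 2 * ε := by
    rw [Real.dist_eq, abs_le]
    constructor
    · linarith [hx2.1, hyI.2]
    · linarith [hx2.2, hyI.1]
  have h3 := hg.dist_le hy hyQ
  have h4 : (C : ℝ) * dist y y' ^ (r : ℝ) ≤ δ := by
    refine le_trans ?_ hδ
    apply mul_le_mul_of_nonneg_left _ C.coe_nonneg
    exact Real.rpow_le_rpow dist_nonneg hd r.coe_nonneg
  have h5 := h3.trans h4
  rw [Real.dist_eq, abs_le] at h5
  refine mem_iUnion₂.2 ⟨φ x, Finset.mem_image_of_mem _ hx, ?_, ?_⟩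
  · rw [e1]; linarith
  · rw [e1]; linarith

/-- the quotient in the definition of the box dimension -/
noncomputable def FN (K : Set ℝ) (ε : ℝ) : ℝ := Real.log (covN K ε) / Real.log (1 / ε)

lemma ubox_eq (K : Set ℝ) : ubox K = limsup (fun ε : ℝ => ((FN K ε : ℝ) : EReal)) (𝓝[>] 0) := rfl

lemma small_ev : ∀ᶠ ε : ℝ in 𝓝[>] 0, 0 < ε ∧ ε < 1 := by
  filter_upwards [self_mem_nhdsWithin, nhdsWithin_le_nhds (gt_mem_nhds (zero_lt_one (α := ℝ)))]
    with ε a b
  exact ⟨a, b⟩

lemma log_pos' {ε : ℝ} (h : 0 < ε ∧ ε < 1) : 0 < Real.log (1 / ε) :=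
  Real.log_pos (one_lt_one_div h.1 h.2)

lemma FN_nonneg (K : Set ℝ) {ε : ℝ} (h : 0 < ε ∧ ε < 1) : 0 ≤ FN K ε :=
  div_nonneg (Real.log_natCast_nonneg _) (log_pos' h).le

lemma log_mono_nat {a b : ℕ} (h : a ≤ b) : Real.log a ≤ Real.log b := by
  rcases Nat.eq_zero_or_pos a with ha | ha
  · rw [ha]
    simp only [Nat.cast_zero, Real.log_zero]
    exact Real.log_natCast_nonneg _
  · exact Real.log_le_log (by exact_mod_cast ha) (by exact_mod_cast h)

lemma log_tendsto : Tendsto (fun ε : ℝ => Real.log (1 / ε)) (𝓝[>] 0) atTop := by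
  have h1 : Tendsto (fun ε : ℝ => ε⁻¹) (𝓝[>] 0) atTop := tendsto_inv_nhdsGT_zero
  have h2 := Real.tendsto_log_atTop.comp h1
  simpa [Function.comp_def, one_div] using h2

/-- **Hölder maps with exponents near one do not increase the box dimension.** -/
theorem ubox_le_of_holder {K K' : Set ℝ} (hK : IsCompact K) (h : ∀ r : ℝ≥0, 0 < r → r < 1 →
    ∃ (C : ℝ≥0) (g : ℝ → ℝ) (Q : Set ℝ), Q ⊆ K ∧ g '' Q = K' ∧ HolderOnWith C r g Q) :
    ubox K' ≤ ubox K := by
  rw [ubox_eq, ubox_eq]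
  apply limsup_compare
  · filter_upwards [small_ev] with ε hε
    exact FN_nonneg K hε
  intro c hc
  -- the exponent
  have hc0 : 0 < 2 / (1 + c) := by positivity
  have hc1 : 2 / (1 + c) < 1 := by
    rw [div_lt_one (by positivity)]
    linarith
  set r : ℝ≥0 := ⟨2 / (1 + c), hc0.le⟩ with hr
  have hrr : (r : ℝ) = 2 / (1 + c) := rfl
  have hr0 : (0 : ℝ) < r := hc0
  obtain ⟨C, g, Q, a1, a2, a3⟩ := h r hc0 hc1
  set C' : ℝ := max C 1 with hC'
  have hC'1 : 1 ≤ C' := le_max_right _ _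
  have hC'0 : 0 < C' := by linarith
  set φ : ℝ → ℝ := fun δ => (δ / C') ^ (1 / (r : ℝ)) / 2 with hφ
  have hφpos : ∀ δ, 0 < δ → 0 < φ δ := by
    intro δ hδ
    simp only [hφ]
    positivity
  have hφ2 : ∀ δ, 0 < δ → (2 * φ δ) ^ (r : ℝ) = δ / C' := by
    intro δ hδ
    simp only [hφ]
    rw [mul_div_cancel₀ _ two_ne_zero, ← Real.rpow_mul (by positivity), one_div,
      inv_mul_cancel₀ hr0.ne', Real.rpow_one]
  have hlogφ : ∀ δ, 0 < δ → Real.log (1 / φ δ) =
      (1 / (r : ℝ)) * (Real.log (1 / δ) + Real.log C') + Real.log 2 := by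
    intro δ hδ
    simp only [hφ]
    rw [one_div, Real.log_inv, Real.log_div (by positivity) two_ne_zero,
      Real.log_rpow (by positivity), Real.log_div hδ.ne' hC'0.ne', one_div δ, Real.log_inv]
    ring
  refine ⟨φ, ?_, ?_⟩
  · -- convergence
    have h1 : Tendsto φ (𝓝 0) (𝓝 (φ 0)) := by
      apply Continuous.tendsto
      simp only [hφ]
      apply Continuous.div_const
      exact (continuous_id.div_const C').rpow_const (fun x => Or.inr (by positivity))
    have h2 : φ 0 = 0 := by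
      simp only [hφ]
      rw [zero_div, Real.zero_rpow (by positivity), zero_div]
    rw [h2] at h1
    rw [tendsto_nhdsWithin_iff]
    refine ⟨h1.mono_left nhdsWithin_le_nhds, ?_⟩
    filter_upwards [self_mem_nhdsWithin] with δ hδ
    exact hφpos δ hδ
  · have hcr : 0 < c - 1 / (r : ℝ) := by
      rw [hrr, one_div_div]
      linarith
    have hev := log_tendsto.eventually_ge_atTop
      (((1 / (r : ℝ)) * Real.log C' + Real.log 2) / (c - 1 / (r : ℝ)))
    filter_upwards [small_ev, hev] with δ hδ hδ2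
    have hL := log_pos' hδ
    rw [div_le_iff₀ hcr] at hδ2
    have h5 : Real.log (1 / φ δ) ≤ c * Real.log (1 / δ) := by
      rw [hlogφ δ hδ.1]
      linarith
    have h6 : covN K' δ ≤ covN K (φ δ) := by
      rw [← a2]
      apply covN_image hK a1 a3 (hφpos δ hδ.1)
      rw [hφ2 δ hδ.1]
      calc (C : ℝ) * (δ / C') ≤ C' * (δ / C') :=
            mul_le_mul_of_nonneg_right (le_max_left _ _) (div_nonneg hδ.1.le hC'0.le)
        _ = δ := by field_simp
    have h7 := log_mono_nat h6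
    have h8 : 0 < Real.log (1 / φ δ) := by
      rw [hlogφ δ hδ.1]
      have := Real.log_nonneg hC'1
      have := Real.log_pos one_lt_two
      positivity
    unfold FN
    rw [mul_div_assoc', div_le_div_iff₀ hL h8]
    have h9 : 0 ≤ Real.log (covN K' δ) := Real.log_natCast_nonneg _
    calc Real.log (covN K' δ) * Real.log (1 / φ δ)
        ≤ Real.log (covN K' δ) * (c * Real.log (1 / δ)) := mul_le_mul_of_nonneg_left h5 h9
      _ ≤ Real.log (covN K (φ δ)) * (c * Real.log (1 / δ)) :=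
          mul_le_mul_of_nonneg_right h7 (by positivity)
      _ = c * Real.log (covN K (φ δ)) * Real.log (1 / δ) := by ring

/-! ### the box dimension along a sequence -/

/-- the quotients along the powers of two -/
noncomputable def FQ (K : Set ℝ) (j : ℕ) : ℝ :=
  Real.log (covQ K ((1 / 2 : ℝ) ^ j)) / (j * Real.log 2)

lemma FQ_nonneg (K : Set ℝ) (j : ℕ) : 0 ≤ FQ K j :=
  div_nonneg (Real.log_natCast_nonneg _) (mul_nonneg (Nat.cast_nonneg _) (Real.log_pos one_lt_two).le)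

theorem ubox_seq {K : Set ℝ} (hK : IsCompact K) :
    ubox K = limsup (fun j : ℕ => ((FQ K j : ℝ) : EReal)) atTop := by
  have hl2 : 0 < Real.log 2 := Real.log_pos one_lt_two
  rw [ubox_eq]
  apply le_antisymm
  · apply limsup_compare
    · filter_upwards with j
      exact FQ_nonneg K j
    intro c hc
    refine ⟨fun ε => ⌈Real.log (1 / ε) / Real.log 2⌉₊, ?_, ?_⟩
    · exact tendsto_nat_ceil_atTop.comp (log_tendsto.atTop_div_const hl2)
    · have hev := log_tendsto.eventually_ge_atTop (Real.log 2 / (c - 1))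
      filter_upwards [small_ev, hev] with ε hε hε2
      have hL := log_pos' hε
      set L := Real.log (1 / ε) with hLdef
      set j := ⌈L / Real.log 2⌉₊ with hj
      have hj1 : L / Real.log 2 ≤ j := Nat.le_ceil _
      have hj2 : (j : ℝ) < L / Real.log 2 + 1 := Nat.ceil_lt_add_one (by positivity)
      rw [div_le_iff₀ hl2] at hj1
      have hj3 : (j : ℝ) * Real.log 2 ≤ c * L := by
        have e1 : (j : ℝ) * Real.log 2 ≤ (L / Real.log 2 + 1) * Real.log 2 :=
          mul_le_mul_of_nonneg_right hj2.le hl2.le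
        have e2 : (L / Real.log 2 + 1) * Real.log 2 = L + Real.log 2 := by field_simp
        rw [div_le_iff₀ (by linarith)] at hε2
        linarith
      have hjpos : 0 < (j : ℝ) * Real.log 2 := by linarith
      have hle : (1 / 2 : ℝ) ^ j ≤ ε := by
        have e1 : Real.log ((1 / 2 : ℝ) ^ j) ≤ Real.log ε := by
          rw [Real.log_pow, one_div, Real.log_inv]
          have e2 : L = -Real.log ε := by rw [hLdef, one_div, Real.log_inv]
          linarith
        exact (Real.log_le_log_iff (by positivity) hε.1).1 e1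
      have h6 := log_mono_nat (covN_le_covQ hK (by positivity) hle)
      unfold FN FQ
      rw [mul_div_assoc', ← hLdef, div_le_div_iff₀ hL hjpos]
      have h9 : 0 ≤ Real.log (covN K ε) := Real.log_natCast_nonneg _
      calc Real.log (covN K ε) * (j * Real.log 2)
          ≤ Real.log (covN K ε) * (c * L) := mul_le_mul_of_nonneg_left hj3 h9
        _ ≤ Real.log (covQ K ((1 / 2 : ℝ) ^ j)) * (c * L) :=
            mul_le_mul_of_nonneg_right h6 (by positivity)
        _ = c * Real.log (covQ K ((1 / 2 : ℝ) ^ j)) * L := by ring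
  · apply limsup_compare
    · filter_upwards [small_ev] with ε hε
      exact FN_nonneg K hε
    intro c hc
    refine ⟨fun j => (1 / 2 : ℝ) ^ (j + 1), ?_, ?_⟩
    · rw [tendsto_nhdsWithin_iff]
      constructor
      · exact (tendsto_pow_atTop_nhds_zero_of_lt_one (by norm_num) (by norm_num)).comp
          (tendsto_add_atTop_nat 1)
      · filter_upwards with j
        exact mem_Ioi.2 (by positivity)
    · obtain ⟨N, hN⟩ := exists_nat_gt (1 / (c - 1))
      filter_upwards [eventually_ge_atTop (N + 1)] with j hj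
      have hjN : (N : ℝ) ≤ j := by
        have : N ≤ j := by omega
        exact_mod_cast this
      have hj0 : (0 : ℝ) < j := by
        have : 0 < j := by omega
        exact_mod_cast this
      have hlt : (1 / 2 : ℝ) ^ (j + 1) < (1 / 2) ^ j :=
        pow_lt_pow_right_of_lt_one₀ (by norm_num) (by norm_num) (Nat.lt_succ_self j)
      have h6 := log_mono_nat (covQ_le_covN hK (by positivity) hlt)
      have hlog : Real.log (1 / (1 / 2 : ℝ) ^ (j + 1)) = (j + 1) * Real.log 2 := by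
        rw [one_div, Real.log_inv, Real.log_pow, one_div, Real.log_inv]
        push_cast
        ring
      have h7 : ((j : ℝ) + 1) ≤ c * j := by
        have h8 : 1 / (c - 1) ≤ j := (hN.le).trans hjN
        rw [div_le_iff₀ (by linarith)] at h8
        linarith
      unfold FN FQ
      rw [hlog, mul_div_assoc', div_le_div_iff₀ (by positivity) (by positivity)]
      have h9 : 0 ≤ Real.log (covQ K ((1 / 2 : ℝ) ^ j)) := Real.log_natCast_nonneg _
      calc Real.log (covQ K ((1 / 2 : ℝ) ^ j)) * (((j : ℝ) + 1) * Real.log 2)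
          ≤ Real.log (covQ K ((1 / 2 : ℝ) ^ j)) * (c * j * Real.log 2) := by
            apply mul_le_mul_of_nonneg_left _ h9
            exact mul_le_mul_of_nonneg_right h7 hl2.le
        _ ≤ Real.log (covN K ((1 / 2 : ℝ) ^ (j + 1))) * (c * j * Real.log 2) :=
            mul_le_mul_of_nonneg_right h6 (by positivity)
        _ = c * Real.log (covN K ((1 / 2 : ℝ) ^ (j + 1))) * (j * Real.log 2) := by ring

/-! ### measurability -/

open Classical in
theorem meas_ubox (hB : TBdd) {lam : ℝ} (hlam : 0 < lam) (t : EReal) :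
    MeasurableSet {α : ℝ | Irrational α ∧ α ∈ Ioo (0:ℝ) 1 ∧ t ≤ ubox (Sp lam (dig α))} := by
  obtain ⟨R, hR⟩ := exists_R hB hlam
  set G : Set ℝ := {α : ℝ | Irrational α ∧ α ∈ Ioo (0:ℝ) 1} with hG
  have hGm : MeasurableSet G := W340.SD.measurable_base
  have hdp : ∀ α ∈ G, ∀ k, 1 ≤ dig α k := fun α h k => dig_pos h.1 h.2.1 h.2.2 k
  -- covering numbers are measurable
  have hcov : ∀ ε : ℝ, 0 < ε →
      Measurable (fun α => if α ∈ G then covQ (Sp lam (dig α)) ε else 0) := by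
    intro ε hε
    apply measurable_of_Iic
    intro N
    have h1 : (fun α => if α ∈ G then covQ (Sp lam (dig α)) ε else 0) ⁻¹' Iic N =
        Gᶜ ∪ ⋃ (t : Finset ℚ) (_ : t.card ≤ N), {α : ℝ | Irrational α ∧ α ∈ Ioo (0:ℝ) 1 ∧
          (⋂ n, CC lam R n (dig α)) ⊆ ⋃ x ∈ t, Ioo ((x : ℝ) - ε) (x + ε)} := by
      ext α
      simp only [mem_preimage, mem_Iic, mem_union, mem_compl_iff, mem_iUnion]
      constructor
      · intro h
        by_cases hα : α ∈ G
        · right
          rw [if_pos hα] at h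
          obtain ⟨t, ht, hc⟩ := covQ_spec (Sp_compact hB hlam (hdp α hα)) hε
          refine ⟨t, by omega, hα.1, hα.2, ?_⟩
          rw [← hR _ (hdp α hα)]
          exact hc
        · left; exact hα
      · rintro (h | ⟨t, ht, h1, h2, h3⟩)
        · rw [if_neg h]; exact Nat.zero_le _
        · have hα : α ∈ G := ⟨h1, h2⟩
          rw [if_pos hα]
          rw [← hR _ (hdp α hα)] at h3
          exact (covQ_le t h3).trans ht
    rw [h1]
    refine hGm.compl.union (MeasurableSet.iUnion fun t => MeasurableSet.iUnion fun _ => ?_)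
    exact W340.SD.meas_subset (CC lam R) (CC_compact lam R) (CC_anti lam R) (CC_congr lam R) _
      (isOpen_biUnion fun x _ => isOpen_Ioo)
  have hF : ∀ j : ℕ, Measurable (fun α => (((Real.log ((if α ∈ G then
      covQ (Sp lam (dig α)) ((1 / 2 : ℝ) ^ j) else 0 : ℕ) : ℝ)) / (j * Real.log 2) : ℝ) : EReal)) := by
    intro j
    have h2 : Measurable (fun N : ℕ => ((Real.log (N : ℝ) / (j * Real.log 2) : ℝ) : EReal)) :=
      measurable_from_nat
    exact h2.comp (hcov _ (by positivity))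
  have hL := Measurable.limsup hF
  have h3 : {α : ℝ | Irrational α ∧ α ∈ Ioo (0:ℝ) 1 ∧ t ≤ ubox (Sp lam (dig α))} =
      G ∩ {α | t ≤ limsup (fun j : ℕ => (((Real.log ((if α ∈ G then
      covQ (Sp lam (dig α)) ((1 / 2 : ℝ) ^ j) else 0 : ℕ) : ℝ)) / (j * Real.log 2) : ℝ) : EReal))
        atTop} := by
    ext α
    constructor
    · rintro ⟨a, b, c⟩
      have hα : α ∈ G := ⟨a, b⟩
      refine ⟨hα, ?_⟩
      rw [ubox_seq (Sp_compact hB hlam (hdp α hα))] at c
      change t ≤ limsup _ _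
      simp only [if_pos hα]
      exact c
    · rintro ⟨hα, c⟩
      refine ⟨hα.1, hα.2, ?_⟩
      rw [ubox_seq (Sp_compact hB hlam (hdp α hα))]
      change t ≤ limsup _ _ at c
      simp only [if_pos hα] at c
      exact c
  rw [h3]
  exact hGm.inter (hL measurableSet_Ici)

theorem finB (hKey : Key) (hOp : TOp) (hB : TBdd) : TFinB := by
  intro lam hlam
  obtain ⟨A, hA⟩ := key_ae hKey hlam
  obtain ⟨d, hd⟩ := zero_one (fun α => ubox (Sp lam (dig α))) (meas_ubox hB hlam) A (by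
    filter_upwards [hA, ae_good] with α h hα n hn
    exact ubox_le_of_holder (Sp_compact hB hlam (fun k => dig_pos hα.1 hα.2.1 hα.2.2 k)) (h n hn))
  refine ⟨d, ?_⟩
  filter_upwards [hd, freq3, ae_good] with α h1 h2 h3 T hT
  rw [hOp lam hlam α h3.1 h3.2.1 h3.2.2 h2 T hT]
  exact h1

end Pool.Agent.W965.Stu
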