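import Mathlib
import Pool.Agent.W965.Stu.ZeroOne
import Pool.Agent.W965.Stu.Op

/-!
Assembly for the Hausdorff dimension.
-/

set_option autoImplicit false

open MeasureTheory Filter Topology Set
open scoped NNReal ENNReal

namespace Pool.Agent.W965.Stu

open Pool.Agent.W811.Stu

lemma dimH_le_of_holder {K K' : Set ℝ} (h : ∀ r : ℝ≥0, 0 < r → r < 1 →
    ∃ (C : ℝ≥0) (g : ℝ → ℝ) (Q : Set ℝ), Q ⊆ K ∧ g '' Q = K' ∧ HolderOnWith C r g Q) :
    dimH K' ≤ dimH K := by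
  have h1 : ∀ r : ℝ≥0, 0 < r → r < 1 → (r : ℝ≥0∞) * dimH K' ≤ dimH K := by
    intro r hr0 hr1
    obtain ⟨C, g, Q, a1, a2, a3⟩ := h r hr0 hr1
    have h2 := a3.dimH_image_le hr0
    rw [a2] at h2
    have h3 : dimH K' ≤ dimH K / r := h2.trans (ENNReal.div_le_div_right (dimH_mono a1) _)
    have hr : (r : ℝ≥0∞) ≠ 0 := by simpa using hr0.ne'
    rw [mul_comm]
    exact (ENNReal.le_div_iff_mul_le (Or.inl hr) (Or.inl ENNReal.coe_ne_top)).1 h3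
  have h2 : Tendsto (fun r : ℝ≥0 => (r : ℝ≥0∞) * dimH K') (𝓝[<] 1) (𝓝 (1 * dimH K')) := by
    apply ENNReal.Tendsto.mul_const _ (Or.inl one_ne_zero)
    have : Tendsto (fun r : ℝ≥0 => (r : ℝ≥0∞)) (𝓝 1) (𝓝 ((1 : ℝ≥0) : ℝ≥0∞)) :=
      ENNReal.continuous_coe.tendsto 1
    rw [ENNReal.coe_one] at this
    exact this.mono_left nhdsWithin_le_nhds
  rw [one_mul] at h2
  have : (𝓝[<] (1 : ℝ≥0)).NeBot := nhdsLT_neBot_of_exists_lt ⟨0, zero_lt_one⟩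
  refine le_of_tendsto h2 ?_
  have h3 : ∀ᶠ r : ℝ≥0 in 𝓝[<] 1, 0 < r :=
    nhdsWithin_le_nhds (lt_mem_nhds zero_lt_one)
  filter_upwards [h3, self_mem_nhdsWithin] with r a b
  exact h1 r a b

theorem finH (hKey : Key) (hOp : TOp) (hB : TBdd) : TFinH := by
  intro lam hlam
  obtain ⟨A, hA⟩ := key_ae hKey hlam
  obtain ⟨R, hR⟩ := exists_R hB hlam
  have hM : ∀ t : ℝ≥0∞, MeasurableSet {α : ℝ | Irrational α ∧ α ∈ Ioo (0:ℝ) 1 ∧
      t ≤ dimH (Sp lam (dig α))} := by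
    intro t
    have h1 := W340.SD.tMeas (CC lam R) (CC_compact lam R) (CC_anti lam R) (CC_congr lam R) t
    have h2 : {α : ℝ | Irrational α ∧ α ∈ Ioo (0:ℝ) 1 ∧ t ≤ dimH (Sp lam (dig α))} =
        {α : ℝ | Irrational α ∧ α ∈ Ioo (0:ℝ) 1 ∧ t ≤ dimH (⋂ n, CC lam R n (dig α))} := by
      ext α
      constructor
      · rintro ⟨a, b, c⟩
        refine ⟨a, b, ?_⟩
        rwa [← hR (dig α) (fun k => dig_pos a b.1 b.2 k)]
      · rintro ⟨a, b, c⟩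
        refine ⟨a, b, ?_⟩
        rwa [hR (dig α) (fun k => dig_pos a b.1 b.2 k)]
    rw [h2]
    exact h1
  obtain ⟨d, hd⟩ := zero_one (fun α => dimH (Sp lam (dig α))) hM A (by
    filter_upwards [hA] with α h n hn
    exact dimH_le_of_holder (h n hn))
  refine ⟨d, ?_⟩
  filter_upwards [hd, freq3, ae_good] with α h1 h2 h3 T hT
  rw [hOp lam hlam α h3.1 h3.2.1 h3.2.2 h2 T hT]
  exact h1

end Pool.Agent.W965.Stu
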