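import Mathlib
import Pool.Agent.W811.Stu.Stmts3
import Pool.Agent.W308.Stu.Bdd
import Pool.Agent.W965.Stu.Poly

/-! # Existence of the holonomy (SD-HOLEX) -/

set_option autoImplicit false

open Polynomial

namespace Pool.Agent.W965.Stu.HolEx

open Pool.Agent.W811.Stu

/-- a real zero of the trace polynomial -/
lemma exists_zero (lam : ℝ) (d : ℕ → ℕ) (n : ℕ) (hd : ∀ k, 1 ≤ d k) :
    ∃ E : ℝ, (orb d (lin lam E) n).y = 0 := by
  obtain ⟨F, hF1, hF, hF2⟩ := Pool.Agent.W965.Stu.tPoly lam d n hd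
  have hdeg : 0 < (F.map (algebraMap ℝ ℂ)).degree := by
    rw [Polynomial.degree_map]
    exact Polynomial.natDegree_pos_iff_degree_pos.1 (by omega)
  obtain ⟨w, hw⟩ := Complex.exists_root hdeg
  have hw1 : aeval w F = 0 := by
    rw [Polynomial.IsRoot.def, Polynomial.eval_map_algebraMap] at hw
    exact hw
  have him := hF2 w hw1
  refine ⟨w.re, ?_⟩
  rw [← hF]
  have e : w = algebraMap ℝ ℂ w.re := by
    apply Complex.ext
    · simp
    · simp [him]
  rw [e, Polynomial.aeval_algebraMap_apply] at hw1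
  have h2 : aeval w.re F = 0 := by
    have := (algebraMap ℝ ℂ).injective (hw1.trans (map_zero _).symm)
    exact this
  rw [Polynomial.coe_aeval_eq_eval] at h2
  exact h2

lemma cont_q (lam : ℝ) (d : ℕ → ℕ) (n : ℕ) : Continuous fun E => toL (orb d (lin lam E) n) := by
  have := (Pool.Agent.W811.Stu.cont_orb d n).comp (cont_lin lam)
  simp only [Function.comp_def, ofL_toL] at this
  exact this

lemma cont_q' (lam : ℝ) (d : ℕ → ℕ) (n : ℕ) (u : P3) :
    Continuous fun E => toL (dorb d (lin lam E) u n) := by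
  have h : Continuous fun _ : ℝ => toL u := continuous_const
  have := (cont_dorb d n).comp ((cont_lin lam).prodMk h)
  simp only [Function.comp_def, ofL_toL] at this
  exact this

/-- continuity of the leaf field along a leaf -/
lemma contP_LF {δ : ℝ} {d : ℕ → ℕ} {m : ℕ} {g : ℝ → P3} {s t : ℝ} (hg : IsLeaf δ d m g s t) :
    ContP (fun τ => LF d m (g τ)) (Set.uIcc s t) := by
  have h1 : ContinuousOn (fun τ => toL (g τ)) (Set.uIcc s t) := fun τ hτ =>
    (hg.der τ hτ).cont.continuousWithinAt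
  have h2 := (cont_LF d m).comp_continuousOn h1
  simp only [Function.comp_def, ofL_toL] at h2
  refine ⟨?_, ?_, ?_⟩
  · exact continuous_fst.comp_continuousOn h2
  · exact (continuous_fst.comp continuous_snd).comp_continuousOn h2
  · exact (continuous_snd.comp continuous_snd).comp_continuousOn h2

/-- sub-leaves -/
lemma sub {δ : ℝ} {d : ℕ → ℕ} {m : ℕ} {g : ℝ → P3} {s t a b : ℝ} (hg : IsLeaf δ d m g s t)
    (ha : a ∈ Set.uIcc s t) (hb : b ∈ Set.uIcc s t) : IsLeaf δ d m g a b := by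
  have hsub : Set.uIcc a b ⊆ Set.uIcc s t := Set.uIcc_subset_uIcc ha hb
  exact ⟨fun τ hτ => hg.der τ (hsub hτ), fun τ hτ => hg.onS τ (hsub hτ),
    fun τ hτ => hg.zz τ (hsub hτ), fun τ hτ => by rw [hg.lev τ (hsub hτ), hg.lev a ha]⟩

/-- one leaf meets the curve -/
lemma one (lam : ℝ) (hlam : 0 < lam) (B : ℕ)
    (hB : ∀ b : ℕ, B ≤ b →
    ∀ (q q' : ℝ → P3) (e0 e1 : ℝ), e0 ≠ e1 →
      ContP q' (Set.uIcc e0 e1) →
      (∀ E ∈ Set.uIcc e0 e1, HasDer q (q' E) E ∧ OnS (lam / 2) (q E) ∧ (q' E).y ≠ 0 ∧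
        -((lam / 2) * |(q E).z| * (q' E).y ^ 2) ≤
          ((1 - (q E).y ^ 2) * ((q' E).x * (q E).z - (q' E).z * (q E).x)
            - (q' E).y * (q E).z * gA (q E)) * (q' E).y) →
      (q e0).y = -(1 / 2) → (q e1).y = 1 / 2 →
    ∀ (p p' : ℝ → P3) (t0 t1 : ℝ), t0 ≠ t1 →
      ContP p' (Set.uIcc t0 t1) →
      (∀ t ∈ Set.uIcc t0 t1, HasDer p (p' t) t ∧ OnS (lam / 2) (p t) ∧ (p' t).z ≠ 0 ∧
        |(p' t).y| ≤ N0 (lam / 2) 1 * |(p' t).z| ∧ |(p' t).x| ≤ N0 (lam / 2) 1 * |(p' t).z|) →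
      (p t0).z = -(1 / 2) → (p t1).z = 1 / 2 →
    ∃ E ∈ Set.uIcc e0 e1, ∃ t ∈ Set.uIcc t0 t1, stepT b (q E) = p t)
    (h2 : TLeafEx) (h5 : TTwist) (d : ℕ → ℕ) (hd : ∀ k, 1 ≤ d k) (n : ℕ) (hn : B ≤ d n)
    (e0 e1 : ℝ) (hy0 : (orb d (lin lam e0) n).y = -(1 / 2))
    (hy1 : (orb d (lin lam e1) n).y = 1 / 2)
    (hy : ∀ e ∈ Set.uIcc e0 e1, |(orb d (lin lam e) n).y| ≤ 1 / 2)
    (E0 : ℝ) (M : ℕ) (hM : 2 ≤ M) (hM1 : |(orb (sh d n) (lin lam E0) M).y| ≤ 1) :
    ∃ E ∈ Set.uIcc e0 e1, Joined (lam / 2) (sh d n) M (lin lam E0) (Ga lam d n E) := by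
  set β := sh d n with hβ
  have hβ1 : ∀ k, 1 ≤ β k := fun k => hd _
  set δ := lam / 2 with hδ
  have hδ0 : 0 < δ := by rw [hδ]; linarith
  have hcc : 1 < cc δ := one_lt_cc hδ0.ne'
  have hk1 : (1 : ℝ) < 1 + δ ^ 2 := by
    have : 0 < δ ^ 2 := by positivity
    linarith
  obtain ⟨g, s, t, hg, h0, hg0, hgs, hgt⟩ := h2 δ hδ0.ne' β hβ1 M hM (lin lam E0)
    (onS_lin lam E0) (by simp [lin]) (lt_of_le_of_lt hM1 hcc)
  have hs : s ∈ Set.uIcc s t := Set.left_mem_uIcc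
  have hg1 : IsLeaf δ β M g 0 s := sub hg h0 hs
  have hz0 : (g 0).z = 1 := by rw [hg0]; rfl
  have hzc : ContinuousOn (fun τ => (g τ).z) (Set.uIcc 0 s) := fun τ hτ =>
    (hg1.der τ hτ).1.continuousAt.continuousWithinAt
  have hmem : ∀ x : ℝ, -1 ≤ x → x ≤ 1 → x ∈ Set.uIcc ((g 0).z) ((g s).z) := by
    intro x hx1 hx2
    rw [hz0, hgs, Set.mem_uIcc]
    right
    exact ⟨hx1, hx2⟩
  obtain ⟨t0, ht0, hz0'⟩ := intermediate_value_uIcc hzc (hmem (-(1 / 2)) (by norm_num)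
    (by norm_num))
  obtain ⟨t1, ht1, hz1'⟩ := intermediate_value_uIcc hzc (hmem (1 / 2) (by norm_num)
    (by norm_num))
  simp only at hz0' hz1'
  have hg2 : IsLeaf δ β M g t0 t1 := sub hg1 ht0 ht1
  have hne : t0 ≠ t1 := by
    intro h
    rw [h, hz1'] at hz0'
    norm_num at hz0'
  have hene : e0 ≠ e1 := by
    intro h
    rw [h, hy1] at hy0
    norm_num at hy0
  have hlev : ∀ τ ∈ Set.uIcc t0 t1, (orb β (g τ) M).y = (orb β (lin lam E0) M).y := by
    intro τ hτ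
    have h3 : τ ∈ Set.uIcc 0 s := Set.uIcc_subset_uIcc ht0 ht1 hτ
    rw [hg1.lev τ h3, hg0]
  obtain ⟨E, hE, τ, hτ, heq⟩ := hB (d n) hn (fun E => orb d (lin lam E) n)
    (fun E => dorb d (lin lam E) ⟨0, 1 / 2, 1 / 2⟩ n) e0 e1 hene
    ⟨(cont_toL_z (cont_q' lam d n _)).continuousOn, (cont_toL_y (cont_q' lam d n _)).continuousOn,
      (cont_toL_x (cont_q' lam d n _)).continuousOn⟩
    (by
      intro E hE
      have h3 : |(orb d (lin lam E) n).y| < 1 := lt_of_le_of_lt (hy E hE) (by norm_num)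
      have h4 := h5 lam hlam d hd n E h3
      exact ⟨(hasDer_lin lam E).orb d n, (onS_lin lam E).orb d n, h4.1, h4.2⟩)
    hy0 hy1 g (fun τ => LF β M (g τ)) t0 t1 hne (contP_LF hg2)
    (by
      intro τ hτ
      have hz := hg2.zz τ hτ
      have hz2 : (g τ).z ^ 2 ≤ 1 := by
        rw [sq_le_one_iff_abs_le_one]
        exact hz
      have hyy : (orb β (g τ) M).y ^ 2 < 1 + δ ^ 2 := by
        rw [hlev τ hτ]
        have : (orb β (lin lam E0) M).y ^ 2 ≤ 1 := by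
          rw [sq_le_one_iff_abs_le_one]
          exact hM1
        linarith
      obtain ⟨c1, c2, c3⟩ := cmpY hδ0.ne' zero_le_one hk1 hβ1 hM (hg2.onS τ hτ) hz2 hyy
      refine ⟨hg2.der τ hτ, hg2.onS τ hτ, c3, ?_, ?_⟩
      · have e1 : |(LF β M (g τ)).y| = |(dorb β (g τ) (fH (g τ)) M).y| := abs_neg _
        rw [e1]
        exact c1
      · have e1 : |(LF β M (g τ)).x| = |(dorb β (g τ) (fK (g τ)) M).y| := abs_neg _
        rw [e1]
        exact c2)
    hz0' hz1'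
  refine ⟨E, hE, g, 0, τ, ?_, hg0, heq.symm⟩
  apply sub hg1 Set.left_mem_uIcc
  exact Set.uIcc_subset_uIcc ht0 ht1 hτ

theorem holEx (h1 : TCross) (h2 : TLeafEx) (h3 : TBddL) (h4 : TDist) (h5 : TTwist) : THolEx := by
  intro lam hlam
  have hδ0 : 0 < lam / 2 := by linarith
  have hcc : 1 < cc (lam / 2) := one_lt_cc hδ0.ne'
  have hk1 : (1 : ℝ) < 1 + (lam / 2) ^ 2 := by
    have : 0 < (lam / 2) ^ 2 := by positivity
    linarith
  have hN0 : 0 ≤ N0 (lam / 2) 1 := by linarith [N0_ge hδ0.ne' zero_le_one hk1]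
  obtain ⟨B, hB⟩ := h1 (lam / 2) hδ0 (N0 (lam / 2) 1) hN0
  obtain ⟨C, hC1, hC⟩ := h3 (lam / 2) hδ0.ne'
  refine ⟨B, ?_⟩
  intro d hd n hn
  -- the window
  obtain ⟨Ez, hEz⟩ := exists_zero lam d n hd
  obtain ⟨u, v, _, _, huv, hw, hends⟩ := ((h4 lam hlam.ne' d hd n).2 (1 / 2) (by norm_num)
    (by linarith)).2 Ez (by rw [hEz]; norm_num)
  refine ⟨u, v, ⟨huv, hw⟩, ?_⟩
  intro E0 hE0
  have hβ1 : ∀ k, 1 ≤ sh d n k := fun k => hd _
  -- the leaves
  have step : ∀ M : ℕ, 2 ≤ M → |(orb (sh d n) (lin lam E0) M).y| ≤ 1 →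
      ∃ E ∈ Set.Icc u v, Joined (lam / 2) (sh d n) M (lin lam E0) (Ga lam d n E) := by
    intro M hM hM1
    rcases hends with ⟨hu, hv⟩ | ⟨hu, hv⟩
    · have := one lam hlam B hB h2 h5 d hd n hn u v hu hv
        (by rw [Set.uIcc_of_le huv.le]; exact hw) E0 M hM hM1
      rw [Set.uIcc_of_le huv.le] at this
      exact this
    · have := one lam hlam B hB h2 h5 d hd n hn v u hv hu
        (by rw [Set.uIcc_of_ge huv.le]; exact hw) E0 M hM hM1
      rw [Set.uIcc_of_ge huv.le] at this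
      exact this
  have step2 : ∀ N : ℕ, ∃ M : ℕ, N ≤ M ∧ |(orb (sh d n) (lin lam E0) M).y| ≤ 1 ∧
      ∃ E ∈ Set.Icc u v, Joined (lam / 2) (sh d n) M (lin lam E0) (Ga lam d n E) := by
    intro N
    rcases hE0 (N + 2) with h | h
    · exact ⟨N + 2, by omega, h, step _ (by omega) h⟩
    · exact ⟨N + 2 + 1, by omega, h, step _ (by omega) h⟩
  choose Mf hMf1 hMf2 Ef hEf1 hEf2 using step2
  obtain ⟨E1, hE1, φ, hφ, hlim⟩ := isCompact_Icc.tendsto_subseq hEf1
  have hHol : Hol lam d n u v E0 E1 := by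
    intro ε hε N
    have h6 := (Metric.tendsto_atTop.1 hlim) ε hε
    obtain ⟨K, hK⟩ := h6
    set k := max K N with hk
    refine ⟨Mf (φ k), ?_, Ef (φ k), hEf1 _, ?_, hMf2 _, hEf2 _⟩
    · exact ((le_max_right K N).trans (hφ.le_apply)).trans (hMf1 _)
    · have := hK k (le_max_left _ _)
      rw [Real.dist_eq] at this
      exact this
  refine ⟨E1, ?_, hE1, hHol⟩
  -- `E1` belongs to the spectrum
  have hbd : ∀ j, |(orb (sh d n) (Ga lam d n E1) j).y| ≤ C := by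
    intro j
    by_contra hcon
    push Not at hcon
    have hcont : Continuous fun E => |(orb (sh d n) (Ga lam d n E) j).y| := by
      have h7 := (Pool.Agent.W811.Stu.cont_orb (sh d n) j).comp (cont_q lam d (n + 1))
      simp only [Function.comp_def, ofL_toL] at h7
      exact (cont_toL_y h7).abs
    have hop := (hcont.tendsto E1).eventually (lt_mem_nhds hcon)
    rw [Metric.eventually_nhds_iff] at hop
    obtain ⟨ε, hε, hop⟩ := hop
    obtain ⟨M, hM, E, hE, hEE, hyM, g, s, t, hg, hgs, hgt⟩ := hHol ε hε (j + 1)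
    have h8 := hop (show dist E E1 < ε by rw [Real.dist_eq]; exact hEE)
    have h9 := hC (sh d n) hβ1 (Ga lam d n E) ((onS_lin lam E).orb d (n + 1))
      (by rw [← hgt]; exact hg.zz t Set.right_mem_uIcc) M (by
        rw [← hgt, hg.lev t Set.right_mem_uIcc, hgs]
        exact hyM) j (by omega)
    exact absurd h9.2.2.1 (not_le.2 h8)
  by_contra hnot
  have hesc := Pool.Agent.W308.Stu.tEsc lam hlam d hd E1 hnot
  have h10 := (Filter.tendsto_atTop.1 hesc (C + 1))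
  rw [Filter.eventually_atTop] at h10
  obtain ⟨m, hm⟩ := h10
  have h11 := hm (n + 1 + m) (by omega)
  have h12 := hbd m
  have e : orb (sh d n) (Ga lam d n E1) m = orb d (lin lam E1) (n + 1 + m) := by
    rw [orb_add]
    rfl
  rw [e] at h12
  linarith

end Pool.Agent.W965.Stu.HolEx
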