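import Mathlib
import Pool.Agent.W811.Stu.Stmts3

/-! # Regular holonomy implies Key (SD-KEY) -/

set_option autoImplicit false

open NNReal

namespace Pool.Agent.W965.Stu.KeyA

open Pool.Agent.W811.Stu

theorem key (h1 : THolEx) (h2 : THol) : Key := by
  intro lam hlam
  obtain ⟨A, hA⟩ := h1 lam hlam
  refine ⟨A, ?_⟩
  intro d hd n hn hgr r hr0 hr1
  obtain ⟨e0, e1, hW, hEx⟩ := hA d hd n hn
  obtain ⟨C, hC, hH⟩ := h2 lam hlam d n hd hgr e0 e1 hW r (by exact_mod_cast hr0)
    (by exact_mod_cast hr1)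
  choose! f hf using hEx
  have hinj : Set.InjOn f (Sp lam (sh d n)) := by
    intro a ha b hb hab
    have h := hH a ha b hb (f a) (f b) (hf a ha).2.2 (hf b hb).2.2
    rw [hab, sub_self, abs_zero, Real.zero_rpow (by
      have : (0 : ℝ) < r := by exact_mod_cast hr0
      exact this.ne'), mul_zero] at h
    have h3 : |a - b| = 0 := le_antisymm h (abs_nonneg _)
    rw [abs_eq_zero, sub_eq_zero] at h3
    exact h3
  refine ⟨C.toNNReal, Function.invFunOn f (Sp lam (sh d n)), f '' Sp lam (sh d n), ?_, ?_, ?_⟩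
  · rintro _ ⟨a, ha, rfl⟩
    exact (hf a ha).1
  · have h4 : (Function.invFunOn f (Sp lam (sh d n))) '' (f '' Sp lam (sh d n)) =
        Sp lam (sh d n) := by
      rw [Set.image_image]
      apply Set.Subset.antisymm
      · rintro _ ⟨a, ha, rfl⟩
        simp only
        rw [hinj.leftInvOn_invFunOn ha]
        exact ha
      · intro a ha
        exact ⟨a, ha, hinj.leftInvOn_invFunOn ha⟩
    exact h4
  · rintro _ ⟨a, ha, rfl⟩ _ ⟨b, hb, rfl⟩
    rw [hinj.leftInvOn_invFunOn ha, hinj.leftInvOn_invFunOn hb]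
    have h := hH a ha b hb (f a) (f b) (hf a ha).2.2 (hf b hb).2.2
    rw [edist_dist, edist_dist, Real.dist_eq, Real.dist_eq]
    rw [ENNReal.ofReal_rpow_of_nonneg (abs_nonneg _) (NNReal.coe_nonneg r)]
    have e : ((C.toNNReal : ℝ≥0) : ENNReal) = ENNReal.ofReal C := rfl
    rw [e, ← ENNReal.ofReal_mul hC.le]
    exact ENNReal.ofReal_le_ofReal h

end Pool.Agent.W965.Stu.KeyA
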