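import Mathlib
import Pool.Agent.W811.Stu.Stmts3

/-! # Bounded distortion of polynomials (SD-PD) -/

set_option autoImplicit false

open Polynomial

namespace Pool.Agent.W965.Stu.PD

open Pool.Agent.W811.Stu

/-- a polynomial without zeros on an interval has constant sign -/
lemma sign_const (G : ℝ[X]) {a b : ℝ} (h : ∀ e ∈ Set.Icc a b, G.eval e ≠ 0) (hab : a ≤ b) :
    ∃ s : ℝ, (s = 1 ∨ s = -1) ∧ ∀ e ∈ Set.Icc a b, 0 < s * G.eval e := by
  have ha := h a (Set.left_mem_Icc.2 hab)
  have key : ∀ e ∈ Set.Icc a b, 0 < G.eval a * G.eval e := by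
    intro e he
    by_contra hneg
    have hne : G.eval a * G.eval e ≠ 0 := mul_ne_zero ha (h e he)
    have hlt : G.eval a * G.eval e < 0 := lt_of_le_of_ne (not_lt.1 hneg) hne
    have h0 : (0 : ℝ) ∈ Set.uIcc (G.eval a) (G.eval e) := by
      rw [Set.mem_uIcc]
      rcases mul_neg_iff.1 hlt with ⟨h1, h2⟩ | ⟨h1, h2⟩
      · right; exact ⟨h2.le, h1.le⟩
      · left; exact ⟨h1.le, h2.le⟩
    obtain ⟨x, hx, hx0⟩ := intermediate_value_uIcc (G.continuous.continuousOn) h0
    rw [Set.uIcc_of_le he.1] at hx
    exact h x ⟨hx.1, hx.2.trans he.2⟩ hx0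
  rcases lt_or_gt_of_ne ha with h1 | h1
  · refine ⟨-1, Or.inr rfl, fun e he => ?_⟩
    have := key e he
    nlinarith
  · refine ⟨1, Or.inl rfl, fun e he => ?_⟩
    have := key e he
    rw [one_mul]
    exact (mul_pos_iff_of_pos_left h1).1 this

lemma pd_aux (F : ℝ[X]) (c κ : ℝ) (hκ : 0 < κ) (hc : κ < c)
    (h1 : ∀ E : ℝ, |F.eval E| < c → F.derivative.eval E ≠ 0)
    (h2 : ∀ E : ℝ, |F.eval E| < c →
      |F.derivative.derivative.eval E| * (c - |F.eval E|) ≤ (F.derivative.eval E) ^ 2)
    {a b : ℝ} (hab : a ≤ b) (hF : ∀ e ∈ Set.Icc a b, |F.eval e| ≤ κ) :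
    |Real.log (F.derivative.eval a) - Real.log (F.derivative.eval b)| ≤ 2 * κ / (c - κ) := by
  have hck : 0 < c - κ := by linarith
  have hne : ∀ e ∈ Set.Icc a b, F.derivative.eval e ≠ 0 := fun e he =>
    h1 e (lt_of_le_of_lt (hF e he) hc)
  obtain ⟨s, hs, hpos⟩ := sign_const F.derivative hne hab
  have hs2 : s * s = 1 := by rcases hs with h | h <;> rw [h] <;> norm_num
  have habs : ∀ e ∈ Set.Icc a b, |F.derivative.eval e| = s * F.derivative.eval e := by
    intro e he
    have h3 := hpos e he
    rcases hs with h | h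
    · rw [h, one_mul] at h3 ⊢
      exact abs_of_pos h3
    · rw [h] at h3 ⊢
      rw [abs_of_neg (by linarith)]
      ring
  -- the bound for the logarithmic derivative
  have hlog : ∀ e ∈ Set.Icc a b,
      |F.derivative.derivative.eval e / F.derivative.eval e| ≤
        s * F.derivative.eval e / (c - κ) := by
    intro e he
    have h3 := hpos e he
    have h4 := h2 e (lt_of_le_of_lt (hF e he) hc)
    rw [abs_div, habs e he, div_le_div_iff₀ h3 hck]
    have h5 : |F.derivative.derivative.eval e| * (c - κ) ≤
        |F.derivative.derivative.eval e| * (c - |F.eval e|) := by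
      have := hF e he
      have h6 := abs_nonneg (F.derivative.derivative.eval e)
      nlinarith
    calc |F.derivative.derivative.eval e| * (c - κ) ≤ (F.derivative.eval e) ^ 2 := h5.trans h4
      _ = s * F.derivative.eval e * (s * F.derivative.eval e) := by
        linear_combination (-(F.derivative.eval e) ^ 2) * hs2
  have hder1 : ∀ e ∈ Set.Icc a b, ∀ q : ℝ,
      HasDerivAt (fun x => Real.log (F.derivative.eval x) + q * F.eval x)
        (F.derivative.derivative.eval e / F.derivative.eval e + q * F.derivative.eval e) e := by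
    intro e he q
    exact ((F.derivative.hasDerivAt e).log (hne e he)).add ((F.hasDerivAt e).const_mul q)
  have hcont : ∀ q : ℝ, ContinuousOn (fun x => Real.log (F.derivative.eval x) + q * F.eval x)
      (Set.Icc a b) := fun q e he => (hder1 e he q).continuousAt.continuousWithinAt
  have ha : a ∈ Set.Icc a b := Set.left_mem_Icc.2 hab
  have hb : b ∈ Set.Icc a b := Set.right_mem_Icc.2 hab
  have m1 : MonotoneOn (fun x => Real.log (F.derivative.eval x) + (s / (c - κ)) * F.eval x)
      (Set.Icc a b) := by
    apply monotoneOn_of_deriv_nonneg (convex_Icc a b) (hcont _)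
    · intro e he
      exact (hder1 e (interior_subset he) _).differentiableAt.differentiableWithinAt
    · intro e he
      have he' := interior_subset he
      rw [(hder1 e he' _).deriv]
      have h3 := (abs_le.1 (hlog e he')).1
      have h4 : s / (c - κ) * F.derivative.eval e = s * F.derivative.eval e / (c - κ) := by ring
      rw [h4]
      linarith
  have m2 : AntitoneOn (fun x => Real.log (F.derivative.eval x) + (-(s / (c - κ))) * F.eval x)
      (Set.Icc a b) := by
    apply antitoneOn_of_deriv_nonpos (convex_Icc a b) (hcont _)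
    · intro e he
      exact (hder1 e (interior_subset he) _).differentiableAt.differentiableWithinAt
    · intro e he
      have he' := interior_subset he
      rw [(hder1 e he' _).deriv]
      have h3 := (abs_le.1 (hlog e he')).2
      have h4 : -(s / (c - κ)) * F.derivative.eval e = -(s * F.derivative.eval e / (c - κ)) := by
        ring
      rw [h4]
      linarith
  have k1 := m1 ha hb hab
  have k2 := m2 ha hb hab
  simp only at k1 k2
  have hFd : |s * (F.eval b - F.eval a)| ≤ 2 * κ := by
    have e1 := abs_le.1 (hF a ha)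
    have e2 := abs_le.1 (hF b hb)
    rcases hs with h | h <;> rw [h, abs_le] <;> constructor <;> linarith
  have h5 : |s / (c - κ) * (F.eval b - F.eval a)| ≤ 2 * κ / (c - κ) := by
    have : s / (c - κ) * (F.eval b - F.eval a) = s * (F.eval b - F.eval a) / (c - κ) := by ring
    rw [this, abs_div, abs_of_pos hck]
    exact div_le_div_of_nonneg_right hFd hck.le
  have h6 := abs_le.1 h5
  rw [abs_le]
  constructor <;> nlinarith [h6.1, h6.2]

/-- **SD-PD.** -/
theorem pd : TPD := by
  intro F c κ hκ hc h1 h2 a b hF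
  have hda : F.derivative.eval a ≠ 0 :=
    h1 a (lt_of_le_of_lt (hF a Set.left_mem_uIcc) hc)
  have hdb : F.derivative.eval b ≠ 0 :=
    h1 b (lt_of_le_of_lt (hF b Set.right_mem_uIcc) hc)
  have h3 : |Real.log (F.derivative.eval a) - Real.log (F.derivative.eval b)| ≤
      2 * κ / (c - κ) := by
    rcases le_total a b with hab | hab
    · rw [Set.uIcc_of_le hab] at hF
      exact pd_aux F c κ hκ hc h1 h2 hab hF
    · rw [Set.uIcc_of_ge hab] at hF
      rw [abs_sub_comm]
      exact pd_aux F c κ hκ hc h1 h2 hab hF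
  have h4 := (abs_le.1 h3).2
  rw [← Real.exp_log (abs_pos.2 hda), ← Real.exp_log (abs_pos.2 hdb), ← Real.exp_add,
    Real.log_abs, Real.log_abs]
  apply Real.exp_le_exp.2
  linarith

end Pool.Agent.W965.Stu.PD
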